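import Pool.Agent.LNG.Bak
import Pool.Agent.LNG.BkC

/-!
# The Baker inequality with the exact determinant exponent

`2 d (d-1) E_K = N^2 - N - (d-1) K N`, `N = d^K`; hence for every absolute value the sum of the local
Green functions of `N` points is at least `-N K (r + 3 l) - N log N`.
-/

namespace Pool.Agent.LNG2

open Polynomial NumberField IsDedekindDomain Pool.Agent.LNG

theorem E_exact {d : ℕ} (hd : 2 ≤ d) (K : ℕ) : (E d K : ℝ) * (2 * d * (d - 1)) =
    ((d : ℝ) ^ K) ^ 2 - (d : ℝ) ^ K - ((d : ℝ) - 1) * K * (d : ℝ) ^ K := by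
  induction K with
  | zero => simp [E]
  | succ K ih =>
    have h1 : 1 ≤ d ^ K := Nat.one_le_pow _ _ (by omega)
    have h2 : 2 ∣ d ^ K * (d ^ K - 1) := by
      have := Nat.even_mul_pred_self (d ^ K)
      exact this.two_dvd
    have h3 : ((d ^ K * (d ^ K - 1) / 2 : ℕ) : ℝ) = (d : ℝ) ^ K * ((d : ℝ) ^ K - 1) / 2 := by
      rw [Nat.cast_div h2 (by norm_num)]
      push_cast [Nat.cast_sub h1]
      ring
    have h4 : (E d (K + 1) : ℝ) = d * (E d K : ℝ) + (d : ℝ) ^ K * ((d : ℝ) ^ K - 1) / 2 := by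
      rw [← h3]
      simp only [E]
      push_cast
      ring
    rw [h4]
    have e : (↑d * (E d K : ℝ) + (d : ℝ) ^ K * ((d : ℝ) ^ K - 1) / 2) * (2 * ↑d * (↑d - 1)) =
        d * ((E d K : ℝ) * (2 * d * (d - 1))) +
          (d : ℝ) ^ K * ((d : ℝ) ^ K - 1) * (d * (d - 1)) := by ring
    rw [e, ih]
    push_cast
    ring

variable {k : Type*} [Field k] {d : ℕ}

theorem BkA_one {v : AbsoluteValue k ℝ} {σ : ℝ} (hσ : SumBound v (bigM d) σ) (hd : 2 ≤ d)
    {F : Coef k d} (hF : res F ≠ 0) (hcn : cn v F = 1) (K : ℕ)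
    (p : Fin (d ^ K) → Fin 2 → k) (hp0 : ∀ i, p i ≠ 0) (hp : ∀ i j, i < j → wd (p i) (p j) ≠ 0) :
    ∑ i, ∑ j ∈ Finset.Ioi i, Real.log (v (wd (p i) (p j))) ≤
      (E d K : ℝ) * rr v F +
      ((d : ℝ) ^ K - 1) * ∑ i, G v F (p i) + (d : ℝ) ^ K * Real.log ((d : ℝ) ^ K) +
      (d : ℝ) ^ K * K * (rr v F + 2 * Real.log σ) := by
  have hd1 : 1 ≤ d := by omega
  have hdR : (1 : ℝ) < (d : ℝ) := by exact_mod_cast (by omega : 1 < d)
  have hd0 : (0 : ℝ) < (d : ℝ) := by linarith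
  have hdm : (0 : ℝ) < (d : ℝ) - 1 := by linarith
  have hl0 : 0 ≤ Real.log σ := Real.log_nonneg hσ.one_le
  have hres : 0 < v (res F) := v.pos hF
  have hr : rr v F = - Real.log (v (res F)) := by
    unfold rr
    rw [hcn, Real.log_one]
    ring
  have hvn : ∀ i m, 0 < vn v ((ev F)^[m] (p i)) := fun i m => vn_pos v (iter_ne_zero hd1 hF (hp0 i) m)
  have hwd : ∀ i, ∀ j ∈ Finset.Ioi i, v (wd (p i) (p j)) ≠ 0 := fun i j hj =>
    (v.pos (hp i j (Finset.mem_Ioi.mp hj))).ne'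
  have hb := det_bound hd1 v F K p
  have hLpos : 0 < v (res F) ^ E d K * ∏ i, ∏ j ∈ Finset.Ioi i, v (wd (p i) (p j)) := by
    refine mul_pos (pow_pos hres _) (Finset.prod_pos fun i _ => Finset.prod_pos fun j hj => ?_)
    exact v.pos (hp i j (Finset.mem_Ioi.mp hj))
  have hlog := Real.log_le_log hLpos hb
  have hP1 : (∏ i, ∏ j ∈ Finset.Ioi i, v (wd (p i) (p j))) ≠ 0 :=
    Finset.prod_ne_zero_iff.mpr fun i _ => Finset.prod_ne_zero_iff.mpr fun j hj => hwd i j hj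
  have hP2 : (∏ i, ∏ m ∈ Finset.range K, vn v ((ev F)^[m] (p i)) ^ (d - 1)) ≠ 0 :=
    Finset.prod_ne_zero_iff.mpr fun i _ => Finset.prod_ne_zero_iff.mpr fun m _ =>
      pow_ne_zero _ (hvn i m).ne'
  have hfac0 : ((Nat.factorial (d ^ K) : ℕ) : ℝ) ≠ 0 := by
    exact_mod_cast Nat.factorial_ne_zero _
  rw [Real.log_mul (pow_ne_zero _ hres.ne') hP1, Real.log_pow,
    Real.log_prod (fun i _ => Finset.prod_ne_zero_iff.mpr fun j hj => hwd i j hj),
    Real.log_mul hfac0 hP2,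
    Real.log_prod (fun i _ => Finset.prod_ne_zero_iff.mpr fun m _ =>
      pow_ne_zero _ (hvn i m).ne')] at hlog
  have hL : ∀ i, Real.log (∏ j ∈ Finset.Ioi i, v (wd (p i) (p j))) =
      ∑ j ∈ Finset.Ioi i, Real.log (v (wd (p i) (p j))) := fun i =>
    Real.log_prod (fun j hj => hwd i j hj)
  have hR : ∀ i, Real.log (∏ m ∈ Finset.range K, vn v ((ev F)^[m] (p i)) ^ (d - 1)) ≤
      ((d : ℝ) ^ K - 1) * G v F (p i) + K * (rr v F + 2 * Real.log σ) := by
    intro i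
    rw [Real.log_prod (fun m _ => pow_ne_zero _ (hvn i m).ne')]
    have h1 : ∀ m ∈ Finset.range K, Real.log (vn v ((ev F)^[m] (p i)) ^ (d - 1)) ≤
        (d : ℝ) ^ m * ((d - 1) * G v F (p i)) + (rr v F + 2 * Real.log σ) := by
      intro m _
      have h2 := (G_spec hσ hd hF (hp0 i)).2.1 m
      rw [hcn, Real.log_one, mul_zero, add_zero] at h2
      have h3 := mul_le_mul_of_nonneg_left h2 hdm.le
      rw [Real.log_pow, Nat.cast_sub hd1, Nat.cast_one]
      refine h3.trans (le_of_eq ?_)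
      rw [hr]
      field_simp
      ring
    refine (Finset.sum_le_sum h1).trans (le_of_eq ?_)
    rw [Finset.sum_add_distrib, ← Finset.sum_mul, geom_sum_eq hdR.ne', Finset.sum_const,
      Finset.card_range, nsmul_eq_mul]
    field_simp
  have hE : - ((E d K : ℝ) * Real.log (v (res F))) = (E d K : ℝ) * rr v F := by rw [hr]; ring
  have hfac : Real.log ((Nat.factorial (d ^ K) : ℕ) : ℝ) ≤
      (d : ℝ) ^ K * Real.log ((d : ℝ) ^ K) := by
    have h1 : Nat.factorial (d ^ K) ≤ (d ^ K) ^ (d ^ K) := Nat.factorial_le_pow _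
    have h2 : ((Nat.factorial (d ^ K) : ℕ) : ℝ) ≤ ((d : ℝ) ^ K) ^ (d ^ K) := by
      exact_mod_cast h1
    have h3 := Real.log_le_log (by exact_mod_cast Nat.factorial_pos _) h2
    rw [Real.log_pow] at h3
    push_cast at h3
    exact h3
  have hsum := Finset.sum_le_sum (fun i (_ : i ∈ (Finset.univ : Finset (Fin (d ^ K)))) => hR i)
  rw [Finset.sum_add_distrib, ← Finset.mul_sum, Finset.sum_const, Finset.card_univ,
    Fintype.card_fin, nsmul_eq_mul] at hsum
  push_cast at hsum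
  simp only [hL] at hlog
  linarith

theorem BkA_gg {v : AbsoluteValue k ℝ} {σ : ℝ} (hσ : SumBound v (bigM d) σ) (hd : 2 ≤ d)
    {F : Coef k d} (hF : res F ≠ 0) (hcn : cn v F = 1) (K : ℕ)
    (p : Fin (d ^ K) → Fin 2 → k) (hp0 : ∀ i, p i ≠ 0) (hp : ∀ i j, i < j → wd (p i) (p j) ≠ 0) :
    -((d : ℝ) ^ K * K * (rr v F + 3 * Real.log σ) + (d : ℝ) ^ K * Real.log ((d : ℝ) ^ K)) ≤
      ∑ i, ∑ j ∈ Finset.Ioi i, gg v F (p i) (p j) := by
  have hd1 : 1 ≤ d := by omega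
  have hdR : (2 : ℝ) ≤ (d : ℝ) := by exact_mod_cast hd
  have hd0 : (0 : ℝ) < (d : ℝ) := by linarith
  have hdm : (0 : ℝ) < (d : ℝ) - 1 := by linarith
  have hl0 : 0 ≤ Real.log σ := Real.log_nonneg hσ.one_le
  have hr : rr v F = - Real.log (v (res F)) := by
    unfold rr
    rw [hcn, Real.log_one]
    ring
  have hrl : -Real.log σ ≤ rr v F := rr_ge hσ hd1 hF
  have hN : (1 : ℝ) ≤ (d : ℝ) ^ K := one_le_pow₀ (by linarith)
  have hb := BkA_one hσ hd hF hcn K p hp0 hp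
  have hS := BakN_sum_pairs (fun i => G v F (p i))
  have hone := BakN_sum_pairs (N := d ^ K) (fun _ => (1 : ℝ) / 2)
  simp only [add_halves, Finset.sum_const, Finset.card_univ, Fintype.card_fin,
    nsmul_eq_mul] at hone
  have hgg : ∑ i, ∑ j ∈ Finset.Ioi i, gg v F (p i) (p j) =
      ∑ i, ∑ j ∈ Finset.Ioi i, (G v F (p i) + G v F (p j)) -
      ∑ i, ∑ j ∈ Finset.Ioi i, Real.log (v (wd (p i) (p j))) +
      (∑ i : Fin (d ^ K), ((Finset.Ioi i).card : ℝ) * 1) * (rr v F / (d * (d - 1))) := by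
    rw [Finset.sum_mul, ← Finset.sum_sub_distrib, ← Finset.sum_add_distrib]
    refine Finset.sum_congr rfl fun i _ => ?_
    rw [mul_one, ← nsmul_eq_mul, ← Finset.sum_const, ← Finset.sum_sub_distrib,
      ← Finset.sum_add_distrib]
    refine Finset.sum_congr rfl fun j _ => ?_
    unfold gg
    rw [hr]
    ring
  rw [hgg, hS, hone]
  push_cast at hb ⊢
  have hE := E_exact hd K
  have hD : (0 : ℝ) < 2 * d * (d - 1) := by positivity
  have hE2 : (E d K : ℝ) * rr v F = (((d : ℝ) ^ K) ^ 2 - (d : ℝ) ^ K) / 2 *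
      (rr v F / (d * (d - 1))) - (d : ℝ) ^ K * K * rr v F / (2 * d) := by
    have h1 : (E d K : ℝ) = (((d : ℝ) ^ K) ^ 2 - (d : ℝ) ^ K - ((d : ℝ) - 1) * K * (d : ℝ) ^ K) /
        (2 * d * (d - 1)) := by
      rw [eq_div_iff hD.ne']
      exact hE
    rw [h1]
    field_simp
  rw [hE2] at hb
  have h3 : -((d : ℝ) ^ K * K * Real.log σ) ≤ (d : ℝ) ^ K * K * rr v F / (2 * d) := by
    have h4 : 0 ≤ (d : ℝ) ^ K * K := by positivity
    rw [le_div_iff₀ (by positivity)]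
    have h5 : 0 ≤ (d : ℝ) ^ K * K * (rr v F + Real.log σ) := mul_nonneg h4 (by linarith)
    have h6 : 0 ≤ (d : ℝ) ^ K * K * Real.log σ := mul_nonneg h4 hl0
    nlinarith
  nlinarith [hb, h3]

/-- The Baker inequality for an arbitrary absolute value. -/
theorem baker_all [Infinite k] (v : AbsoluteValue k ℝ) (hd : 2 ≤ d)
    {F : Coef k d} (hF : res F ≠ 0) (K N : ℕ) (hN : N = d ^ K) (p : Fin N → Fin 2 → k)
    (hp0 : ∀ i, p i ≠ 0) (hp : ∀ i j, i < j → wd (p i) (p j) ≠ 0) :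
    -((N : ℝ) * K * (rr v F + 3 * Real.log (bigM d)) + N * Real.log N) ≤
      ∑ i, ∑ j ∈ Finset.Ioi i, gg v F (p i) (p j) := by
  subst hN
  have hd1 : 1 ≤ d := by omega
  have hσ : SumBound v (bigM d) (bigM d : ℝ) := sumBound_arch v (bigM d) (Nat.factorial_pos _)
  obtain ⟨q, hq⟩ := exists_cn v F
  have hc0 : 0 < cn v F := cn_pos v (Est3_ne_zero hd1 hF)
  have hFq : F q ≠ 0 := by
    intro h
    rw [h, map_zero] at hq
    exact hc0.ne hq
  have hc : (F q)⁻¹ ≠ 0 := inv_ne_zero hFq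
  have hcn : cn v ((F q)⁻¹ • F) = 1 := by
    rw [cn_smul, map_inv₀, hq, inv_mul_cancel₀ hc0.ne']
  have hres : res ((F q)⁻¹ • F) ≠ 0 := by
    rw [res_smul]
    exact mul_ne_zero (pow_ne_zero _ hc) hF
  have h := BkA_gg hσ hd hres hcn K p hp0 hp
  rw [rr_smul hd1 v hF hc] at h
  have h2 : ∑ i, ∑ j ∈ Finset.Ioi i, gg v ((F q)⁻¹ • F) (p i) (p j) =
      ∑ i, ∑ j ∈ Finset.Ioi i, gg v F (p i) (p j) := by
    refine Finset.sum_congr rfl fun i _ => Finset.sum_congr rfl fun j hj => ?_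
    exact gg_smul v hd hF (hp i j (Finset.mem_Ioi.mp hj)) hc
  rw [h2] at h
  push_cast
  exact h

/-- The Baker inequality with the minimal size, at any absolute value of a number field. -/
theorem baker_min_all {K : Type} [Field K] [NumberField K] {d : ℕ} (hd : 2 ≤ d)
    (v : AbsoluteValue K ℝ) {F : Coef K d} (hF : res F ≠ 0) (K' N : ℕ)
    (hN : N = d ^ K') (X : Fin N → Fin 2 → K) (hX0 : ∀ i, X i ≠ 0)
    (hX : ∀ i j, i < j → wd (X i) (X j) ≠ 0) :
    -((N : ℝ) * K' * (rmin v F + 3 * Real.log (bigM d)) + N * Real.log N) ≤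
      ∑ i, ∑ j ∈ Finset.Ioi i, gg v F (X i) (X j) := by
  have ha : 0 ≤ (N : ℝ) * K' := by positivity
  have key : -(∑ i, ∑ j ∈ Finset.Ioi i, gg v F (X i) (X j)) -
      ((N : ℝ) * K' * (3 * Real.log (bigM d)) + N * Real.log N) ≤ (N : ℝ) * K' * rmin v F := by
    refine rmin_glb v ha ?_
    intro L _ ι w M hw hM
    have : Infinite L := Infinite.of_injective ι ι.injective
    have hF0 : res (conj (mapC ι F) M) ≠ 0 := by
      rw [res_conj _ hM, res_map]
      exact mul_ne_zero (pow_ne_zero _ hM) ((map_ne_zero ι).2 hF)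
    have e : ∑ i, ∑ j ∈ Finset.Ioi i, gg v F (X i) (X j) =
        ∑ i, ∑ j ∈ Finset.Ioi i, gg w (conj (mapC ι F) M) (M⁻¹.mulVec (mapV ι (X i)))
          (M⁻¹.mulVec (mapV ι (X j))) := by
      refine Finset.sum_congr rfl fun i _ => Finset.sum_congr rfl fun j hj => ?_
      exact gg_ext ι w v hw hd hF hM (hX i j (Finset.mem_Ioi.mp hj))
    have hb := baker_all w hd hF0 K' N hN (fun i => M⁻¹.mulVec (mapV ι (X i)))
      (fun i hi => hX0 i ?_) (fun i j hij => wd_ext ι hM (hX i j hij))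
    · rw [e]
      linarith
    · have h1 : M.mulVec (M⁻¹.mulVec (mapV ι (X i))) = 0 := by
        rw [hi]
        simp
      rw [Matrix.mulVec_mulVec, Matrix.mul_nonsing_inv _ (isUnit_iff_ne_zero.mpr hM),
        Matrix.one_mulVec] at h1
      funext l
      have h2 := congrFun h1 l
      simp only [mapV, Pi.zero_apply] at h2
      exact (map_eq_zero ι).1 h2
  linarith

end Pool.Agent.LNG2
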