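import Pool.Agent.LNG2.LoI

/-!
# Choice of the number of points
-/

namespace Pool.Agent.LNG2

theorem Kch_sq (n : ℕ) : (n + 4) ^ 2 ≤ 2 ^ (n + 4) := by
  induction n with
  | zero => norm_num
  | succ n ih =>
    have h1 : 2 ^ (n + 1 + 4) = 2 * 2 ^ (n + 4) := by
      rw [show n + 1 + 4 = (n + 4) + 1 by omega, pow_succ]
      ring
    rw [h1]
    have h2 : (n + 1 + 4) ^ 2 ≤ 2 * (n + 4) ^ 2 := by
      have e : 2 * (n + 4) ^ 2 = (n + 1 + 4) ^ 2 + (n * n + 6 * n + 7) := by ring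
      rw [e]
      exact Nat.le_add_right _ _
    exact h2.trans (Nat.mul_le_mul_left _ ih)

theorem Kch_exists (d : ℕ) (hd : 2 ≤ d) {y : ℝ} (hy : 0 < y) :
    ∃ K' : ℕ, 6 * ((K' : ℝ) + 1) ≤ y * ((d : ℝ) ^ K' - 1) := by
  obtain ⟨n, hn⟩ := exists_nat_gt (7 / y)
  have h1 : (n + 4) ^ 2 ≤ d ^ (n + 4) := (Kch_sq n).trans (Nat.pow_le_pow_left hd _)
  refine ⟨n + 4, ?_⟩
  have h2 : ((n : ℝ) + 4) ^ 2 ≤ (d : ℝ) ^ (n + 4) := by exact_mod_cast h1
  have h3 : 7 < y * n := by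
    rw [div_lt_iff₀ hy] at hn
    linarith
  push_cast
  have hn0 : (0 : ℝ) ≤ n := Nat.cast_nonneg n
  have h4 : 6 * ((n : ℝ) + 4 + 1) ≤ y * (((n : ℝ) + 4) ^ 2 - 1) := by
    have e : ((n : ℝ) + 4) ^ 2 - 1 = ((n : ℝ) + 5) * ((n : ℝ) + 3) := by ring
    rw [e]
    have h5 : 7 ≤ y * ((n : ℝ) + 3) := by nlinarith
    nlinarith
  have h6 : y * (((n : ℝ) + 4) ^ 2 - 1) ≤ y * ((d : ℝ) ^ (n + 4) - 1) :=
    mul_le_mul_of_nonneg_left (by linarith) (by positivity)
  exact h4.trans h6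

/-- Choice of `K'` for `y ∈ (0,1]`. -/
theorem Kch_main (d : ℕ) (hd : 2 ≤ d) {y : ℝ} (hy : 0 < y) (hy1 : y ≤ 1) :
    ∃ K' : ℕ, 1 ≤ K' ∧ 3 ≤ d ^ K' ∧ LNG2.eta K' (d ^ K') ≤ y ∧
      ((d : ℝ) ^ K') ≤ 119 * d * (1 / y * Real.log (2 / y)) := by
  classical
  have hex := Kch_exists d hd hy
  set K' := Nat.find hex with hK
  have hQ : 6 * ((K' : ℝ) + 1) ≤ y * ((d : ℝ) ^ K' - 1) := Nat.find_spec hex
  have hdR : (2 : ℝ) ≤ d := by exact_mod_cast hd
  have hK0 : (0 : ℝ) ≤ K' := Nat.cast_nonneg _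
  have hd7 : 7 ≤ (d : ℝ) ^ K' := by
    have h1 : 0 ≤ (d : ℝ) ^ K' - 1 := by
      have : (1 : ℝ) ≤ (d : ℝ) ^ K' := one_le_pow₀ (by linarith)
      linarith
    have h2 : y * ((d : ℝ) ^ K' - 1) ≤ 1 * ((d : ℝ) ^ K' - 1) := mul_le_mul_of_nonneg_right hy1 h1
    linarith
  have hK1 : 1 ≤ K' := by
    by_contra hcon
    have h0 : K' = 0 := by omega
    rw [h0] at hd7
    norm_num at hd7
  have hd3 : 3 ≤ d ^ K' := by
    have : (3 : ℝ) ≤ ((d ^ K' : ℕ) : ℝ) := by
      push_cast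
      linarith
    exact_mod_cast this
  refine ⟨K', hK1, hd3, ?_, ?_⟩
  · unfold eta
    push_cast
    rw [div_le_iff₀ (by linarith)]
    exact hQ
  · obtain ⟨j, hj⟩ : ∃ j, K' = j + 1 := ⟨K' - 1, by omega⟩
    have hnot : ¬ (6 * ((j : ℝ) + 1) ≤ y * ((d : ℝ) ^ j - 1)) := by
      apply Nat.find_min hex
      omega
    push Not at hnot
    have hj0 : (0 : ℝ) ≤ j := Nat.cast_nonneg _
    have h1 : (d : ℝ) ^ j < 7 * ((j : ℝ) + 1) / y := by
      rw [lt_div_iff₀ hy]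
      nlinarith
    have hlog2 : (0.6931 : ℝ) < Real.log 2 := by
      have := Real.log_two_gt_d9
      linarith
    have hly : 0 ≤ Real.log (1 / y) := Real.log_nonneg (by
      rw [le_div_iff₀ hy]
      linarith)
    have hly2 : Real.log (2 / y) = Real.log 2 + Real.log (1 / y) := by
      rw [← Real.log_mul (by norm_num) (by positivity)]
      congr 1
      ring
    -- bound for j
    have h2 : (j : ℝ) * Real.log 2 < Real.log 7 + Real.log ((j : ℝ) + 1) + Real.log (1 / y) := by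
      have h3 : (2 : ℝ) ^ j ≤ (d : ℝ) ^ j := pow_le_pow_left₀ (by norm_num) hdR _
      have h4 : (2 : ℝ) ^ j < 7 * ((j : ℝ) + 1) * (1 / y) := by
        refine lt_of_le_of_lt h3 ?_
        rw [mul_one_div]
        exact h1
      have h5 := Real.log_lt_log (by positivity) h4
      rw [Real.log_pow, Real.log_mul (by positivity) (by positivity),
        Real.log_mul (by norm_num) (by positivity)] at h5
      exact h5
    have h7 : Real.log 7 ≤ 2.1 := by
      have h8 : Real.log 7 ≤ Real.log 8 := Real.log_le_log (by norm_num) (by norm_num)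
      have h9 : Real.log 8 = 3 * Real.log 2 := by
        rw [show (8 : ℝ) = 2 ^ 3 by norm_num, Real.log_pow]
        norm_num
      have := Real.log_two_lt_d9
      linarith
    have h10 : Real.log ((j : ℝ) + 1) ≤ ((j : ℝ) + 1) / 4 + 0.4 := by
      have h11 : Real.log ((j : ℝ) + 1) = Real.log (((j : ℝ) + 1) / 4) + Real.log 4 := by
        rw [← Real.log_mul (by positivity) (by norm_num)]
        congr 1
        ring
      have h12 := Real.log_le_sub_one_of_pos (show 0 < ((j : ℝ) + 1) / 4 by positivity)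
      have h13 : Real.log 4 = 2 * Real.log 2 := by
        rw [show (4 : ℝ) = 2 ^ 2 by norm_num, Real.log_pow]
        norm_num
      have := Real.log_two_lt_d9
      linarith
    have h14 : (j : ℝ) + 1 ≤ 17 * Real.log (2 / y) := by
      rw [hly2]
      nlinarith
    rw [hj, pow_succ]
    have hd0 : (0 : ℝ) < d := by linarith
    calc (d : ℝ) ^ j * d ≤ 7 * ((j : ℝ) + 1) / y * d :=
          mul_le_mul_of_nonneg_right h1.le hd0.le
      _ ≤ 7 * (17 * Real.log (2 / y)) / y * d := by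
          refine mul_le_mul_of_nonneg_right ?_ hd0.le
          exact div_le_div_of_nonneg_right (by linarith) hy.le
      _ = 119 * d * (1 / y * Real.log (2 / y)) := by ring

/-- Choice of `K'` for `y = θ η₀`. -/
theorem Kch_theta (d : ℕ) (hd : 2 ≤ d) {η₀ : ℝ} (hη : 0 < η₀) (hη1 : η₀ ≤ 1) :
    ∃ C : ℝ, 1 ≤ C ∧ ∀ θ : ℝ, 0 < θ → θ ≤ 1 → ∃ K' : ℕ, 1 ≤ K' ∧ 3 ≤ d ^ K' ∧
      LNG2.eta K' (d ^ K') ≤ θ * η₀ ∧ ((d : ℝ) ^ K') ≤ C * (1 / θ * Real.log (2 / θ)) := by
  have hdR : (2 : ℝ) ≤ d := by exact_mod_cast hd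
  have hl : 0 ≤ Real.log (1 / η₀) := Real.log_nonneg (by
    rw [le_div_iff₀ hη]
    linarith)
  have hlog2 : (0.6931 : ℝ) < Real.log 2 := by
    have := Real.log_two_gt_d9
    linarith
  refine ⟨119 * d * (1 / η₀) * (1 + Real.log (1 / η₀) / Real.log 2), ?_, ?_⟩
  · have h1 : 1 ≤ 1 / η₀ := by
      rw [le_div_iff₀ hη]
      linarith
    have h2 : (1 : ℝ) ≤ 1 + Real.log (1 / η₀) / Real.log 2 := by
      have : 0 ≤ Real.log (1 / η₀) / Real.log 2 := div_nonneg hl (by linarith)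
      linarith
    have h3 : (1 : ℝ) ≤ 119 * d := by linarith
    exact one_le_mul_of_one_le_of_one_le (one_le_mul_of_one_le_of_one_le h3 h1) h2
  · intro θ h0 h1
    have hy : 0 < θ * η₀ := mul_pos h0 hη
    have hy1 : θ * η₀ ≤ 1 := by nlinarith
    obtain ⟨K', hK1, hK3, hKe, hKd⟩ := Kch_main d hd hy hy1
    refine ⟨K', hK1, hK3, hKe, hKd.trans ?_⟩
    have hlt : Real.log 2 ≤ Real.log (2 / θ) := by
      apply Real.log_le_log (by norm_num)
      rw [le_div_iff₀ h0]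
      linarith
    have e1 : Real.log (2 / (θ * η₀)) = Real.log (2 / θ) + Real.log (1 / η₀) := by
      rw [← Real.log_mul (by positivity) (by positivity)]
      congr 1
      field_simp
    have h3 : Real.log (2 / (θ * η₀)) ≤
        (1 + Real.log (1 / η₀) / Real.log 2) * Real.log (2 / θ) := by
      rw [e1, add_mul, one_mul]
      have h4 : Real.log (1 / η₀) = Real.log (1 / η₀) / Real.log 2 * Real.log 2 := by
        field_simp
      have h5 : Real.log (1 / η₀) / Real.log 2 * Real.log 2 ≤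
          Real.log (1 / η₀) / Real.log 2 * Real.log (2 / θ) :=
        mul_le_mul_of_nonneg_left hlt (div_nonneg hl (by linarith))
      linarith
    have h6 : 0 ≤ 119 * (d : ℝ) * (1 / (θ * η₀)) := by positivity
    have h7 := mul_le_mul_of_nonneg_left h3 h6
    refine le_trans (le_of_eq ?_) (h7.trans (le_of_eq ?_))
    · ring
    · field_simp

end Pool.Agent.LNG2
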