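import Pool.Agent.LNG2.Gl2

/-!
# Selection of the places with the largest minimal size, and the size of the height
-/

namespace Pool.Agent.LNG2

open Polynomial NumberField IsDedekindDomain Pool.Agent.LNG

theorem select {ι : Type} [DecidableEq ι] (r : ι → ℝ) (hr : ∀ i, 0 ≤ r i) (k : ℕ) :
    ∀ B : Finset ι, k ≤ B.card → ∃ T ⊆ B, T.card = k ∧
      (k : ℝ) * ∑ v ∈ B, r v ≤ (B.card : ℝ) * ∑ v ∈ T, r v := by
  induction k with
  | zero =>
    intro B _
    exact ⟨∅, Finset.empty_subset _, rfl, by simp⟩
  | succ k ih =>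
    intro B hB
    have hne : B.Nonempty := by
      rw [← Finset.card_pos]
      omega
    obtain ⟨v, hv, hmax⟩ := Finset.exists_max_image B r hne
    have hc : (B.erase v).card = B.card - 1 := Finset.card_erase_of_mem hv
    obtain ⟨T, hT, hTc, hle⟩ := ih (B.erase v) (by omega)
    have hvT : v ∉ T := fun h => Finset.notMem_erase v B (hT h)
    refine ⟨insert v T, ?_, ?_, ?_⟩
    · intro x hx
      rcases Finset.mem_insert.mp hx with rfl | h
      · exact hv
      · exact Finset.mem_of_mem_erase (hT h)
    · rw [Finset.card_insert_of_notMem hvT, hTc]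
    · rw [Finset.sum_insert hvT, ← Finset.add_sum_erase B r hv]
      set S : ℝ := ∑ x ∈ B.erase v, r x with hS
      set t : ℝ := ∑ x ∈ T, r x with ht
      have hx : S ≤ ((B.erase v).card : ℝ) * r v := by
        rw [hS, ← nsmul_eq_mul]
        exact Finset.sum_le_card_nsmul _ _ _ fun x hx => hmax x (Finset.mem_of_mem_erase hx)
      have hcB : (B.card : ℝ) = ((B.erase v).card : ℝ) + 1 := by
        rw [hc]
        have : 1 ≤ B.card := by omega
        push_cast [Nat.cast_sub this]
        ring
      rw [hcB]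
      set b : ℝ := ((B.erase v).card : ℝ) with hb
      have hkb : (k : ℝ) ≤ b := by
        rw [hb, hc]
        exact_mod_cast (by omega : k ≤ B.card - 1)
      have hk0 : (0 : ℝ) ≤ k := Nat.cast_nonneg _
      have hb0 : 0 ≤ b := Nat.cast_nonneg _
      have hS0 : 0 ≤ S := Finset.sum_nonneg fun x _ => hr x
      have ht0 : 0 ≤ t := Finset.sum_nonneg fun x _ => hr x
      have key : ((k : ℝ) + 1) * S ≤ (b - k) * r v + (b + 1) * t := by
        rcases hb0.eq_or_lt with h0 | h0
        · have hk : (k : ℝ) = 0 := le_antisymm (by linarith) hk0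
          rw [← h0, zero_mul] at hx
          have hSz : S = 0 := le_antisymm hx hS0
          rw [hSz, hk, ← h0]
          nlinarith
        · have h1 : b * (((k : ℝ) + 1) * S) ≤ b * ((b - k) * r v + (b + 1) * t) := by
            have h2 : (b - k) * S ≤ (b - k) * (b * r v) :=
              mul_le_mul_of_nonneg_left hx (by linarith)
            have h3 : (b + 1) * ((k : ℝ) * S) ≤ (b + 1) * (b * t) :=
              mul_le_mul_of_nonneg_left hle (by linarith)
            nlinarith
          exact le_of_mul_le_mul_left h1 h0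
      push_cast
      nlinarith

variable {K : Type} [Field K] [NumberField K] {d : ℕ}

/-- The sum of the minimal sizes at the finite places. -/
noncomputable def Rf (F : Coef K d) : ℝ := ∑ᶠ v : FinitePlace K, rmin v.val F

/-- The sum of the positive parts of the minimal sizes at the infinite places. -/
noncomputable def Rinf (F : Coef K d) : ℝ :=
  ∑ v : InfinitePlace K, (v.mult : ℝ) * max (rmin v.val F) 0

theorem Rinf_nonneg (F : Coef K d) : 0 ≤ Rinf F :=
  Finset.sum_nonneg fun _ _ => mul_nonneg (Nat.cast_nonneg _) (le_max_right _ _)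

theorem Rf_nonneg (hd : 1 ≤ d) {F : Coef K d} (hF : res F ≠ 0) : 0 ≤ Rf F :=
  finsum_nonneg fun v => rmin_nonneg hd v hF

theorem W_le (hd : 1 ≤ d) {F : Coef K d} (hF : res F ≠ 0) (T : Finset (FinitePlace K)) :
    ∑ᶠ v ∈ (badPl F \ (T : Set (FinitePlace K))), rmin v.val F ≤ Rf F := by
  classical
  rw [finsum_bad hd hF T]
  unfold Rf
  have hs := finite_rmin hd hF
  have h := Sg_mono (f := fun _ : InfinitePlace K => (0 : ℝ)) (f' := fun _ => (0 : ℝ))
    (g := fun v : FinitePlace K => if v ∈ T then 0 else rmin v.val F)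
    (g' := fun v : FinitePlace K => rmin v.val F) ?_ hs (fun _ => le_rfl) ?_
  · unfold Sg at h
    simpa using h
  · refine hs.subset fun v hv => ?_
    rw [Function.mem_support] at hv ⊢
    intro h0
    apply hv
    rw [h0]
    simp
  · intro v
    by_cases h : v ∈ T
    · simp only [if_pos h]
      exact rmin_nonneg hd v hF
    · simp only [if_neg h]
      exact le_rfl

theorem W_nonneg (hd : 1 ≤ d) {F : Coef K d} (hF : res F ≠ 0) (T : Finset (FinitePlace K)) :
    0 ≤ ∑ᶠ v ∈ (badPl F \ (T : Set (FinitePlace K))), rmin v.val F := by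
  classical
  rw [finsum_bad hd hF T]
  refine finsum_nonneg fun v => ?_
  by_cases h : v ∈ T
  · simp [if_pos h]
  · simp only [if_neg h]
    exact rmin_nonneg hd v hF

/-- A set `T` of at most `θ s + 1` places that carries the proportion `θ` of the minimal sizes. -/
theorem select_places (hd : 1 ≤ d) {F : Coef K d} (hF : res F ≠ 0) {s : ℕ}
    (hs : (badPl F).encard ≤ s) {θ : ℝ} (h0 : 0 < θ) (h1 : θ ≤ 1) :
    ∃ T : Finset (FinitePlace K), (T.card : ℝ) ≤ θ * s + 1 ∧ θ * Rf F ≤ ∑ v ∈ T, rmin v.val F := by
  classical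
  have hfin := badPl_finite hd hF
  set B : Finset (FinitePlace K) := hfin.toFinset with hB
  have hBc : (B.card : ℝ) ≤ s := by
    have h2 : (badPl F).encard = B.card := by
      rw [hB, hfin.encard_eq_coe_toFinset_card]
    rw [h2] at hs
    exact_mod_cast hs
  have hRf : Rf F = ∑ v ∈ B, rmin v.val F := by
    unfold Rf
    refine finsum_eq_sum_of_support_subset _ ?_
    intro v hv
    rw [Function.mem_support] at hv
    rw [hB, Set.Finite.coe_toFinset]
    intro hpg
    exact hv (rmin_potGood hd v hF hpg)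
  set k : ℕ := ⌈θ * B.card⌉₊ with hk
  have hk1 : k ≤ B.card := by
    rw [hk, Nat.ceil_le]
    have : (0 : ℝ) ≤ B.card := Nat.cast_nonneg _
    nlinarith
  have hk2 : θ * B.card ≤ k := Nat.le_ceil _
  have hk3 : (k : ℝ) < θ * B.card + 1 := Nat.ceil_lt_add_one (by positivity)
  obtain ⟨T, -, hTc, hle⟩ := select (fun v : FinitePlace K => rmin v.val F)
    (fun v => rmin_nonneg hd v hF) k B hk1
  refine ⟨T, ?_, ?_⟩
  · rw [hTc]
    have : θ * B.card ≤ θ * s := mul_le_mul_of_nonneg_left hBc h0.le
    linarith
  · rw [hRf]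
    have hS0 : 0 ≤ ∑ v ∈ B, rmin v.val F := Finset.sum_nonneg fun v _ => rmin_nonneg hd v hF
    have hT0 : 0 ≤ ∑ v ∈ T, rmin v.val F := Finset.sum_nonneg fun v _ => rmin_nonneg hd v hF
    rcases Nat.eq_zero_or_pos B.card with hz | hz
    · rw [Finset.card_eq_zero.mp hz]
      simpa using hT0
    · have hz' : (0 : ℝ) < B.card := by exact_mod_cast hz
      have h3 : (B.card : ℝ) * (θ * ∑ v ∈ B, rmin v.val F) ≤ B.card * ∑ v ∈ T, rmin v.val F := by
        have h4 := mul_le_mul_of_nonneg_right hk2 hS0
        linarith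
      exact le_of_mul_le_mul_left h3 hz'

/-- The height of every conjugate is at least the sum of the minimal sizes. -/
theorem height_low (hd : 1 ≤ d) {F : Coef K d} (hF : res F ≠ 0)
    {A : Matrix (Fin 2) (Fin 2) K} (hA : A.det ≠ 0) :
    Rf F + Rinf F - Real.log (bigM d) * Module.finrank ℚ K ≤
      2 * d * Height.logHeight (conj F A) := by
  have hres : res (conj F A) ≠ 0 := by
    rw [res_conj F hA]
    exact mul_ne_zero (pow_ne_zero _ hA) hF
  rw [← SA_rr hd hres]
  have h := Sg_mono (f := fun v : InfinitePlace K => max (rmin v.val F) 0 - Real.log (bigM d))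
    (f' := fun v : InfinitePlace K => rr v.val (conj F A))
    (g := fun v : FinitePlace K => rmin v.val F)
    (g' := fun v : FinitePlace K => rr v.val (conj F A)) (finite_rmin hd hF) (FS_rr hd hres) ?_ ?_
  · refine le_trans (le_of_eq ?_) h
    unfold Sg Rf Rinf
    rw [← sum_mult (K := K), Finset.mul_sum]
    have e : ∑ v : InfinitePlace K, (v.mult : ℝ) * (max (rmin v.val F) 0 - Real.log (bigM d)) =
        ∑ v : InfinitePlace K, (v.mult : ℝ) * max (rmin v.val F) 0 -
          ∑ v : InfinitePlace K, Real.log (bigM d) * (v.mult : ℝ) := by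
      rw [← Finset.sum_sub_distrib]
      exact Finset.sum_congr rfl fun v _ => by ring
    rw [e]
    ring
  · intro v
    have h1 := rmin_le hd v.val hF hA
    have h2 := rr_ge_all hd hres v.val
    have h3 : 0 ≤ Real.log (bigM d) := Real.log_natCast_nonneg _
    rcases max_cases (rmin v.val F) 0 with ⟨h, -⟩ | ⟨h, -⟩
    · simp only [h]; linarith
    · simp only [h]; linarith
  · intro v
    exact rmin_le hd v.val hF hA

end Pool.Agent.LNG2
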