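import Pool.Agent.LNG2.Tri
import Pool.Agent.LNG2.Sel
import Pool.Agent.LNG2.Kch

/-!
# The two cases: large and small minimal sizes
-/

namespace Pool.Agent.LNG2

open Polynomial NumberField IsDedekindDomain Pool.Agent.LNG

theorem Cas_sum_nonneg {K : Type} [Field K] [NumberField K] {d : ℕ} (hd : 2 ≤ d) {F : Coef K d}
    (hF : res F ≠ 0) {N : ℕ} {X : Fin N → Fin 2 → K} (hX : ∀ i, X i ≠ 0)
    (τ : Fin N × Fin N × Fin N) :
    0 ≤ canHeight F (X τ.1) + canHeight F (X τ.2.1) + canHeight F (X τ.2.2) := by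
  have h1 := canHeight_nonneg hd hF (hX τ.1)
  have h2 := canHeight_nonneg hd hF (hX τ.2.1)
  have h3 := canHeight_nonneg hd hF (hX τ.2.2)
  linarith

/-- From the main inequality with a nonnegative bracket. -/
theorem Cas_big {K : Type} [Field K] [NumberField K] {d : ℕ} (hd : 2 ≤ d) {F : Coef K d}
    {A : Matrix (Fin 2) (Fin 2) K} {Br s θ x D' : ℝ}
    (hx : 0 < x) (hθ : 0 < θ) (hs : 0 ≤ s) (hn : (Module.finrank ℚ K : ℝ) ≤ D') (hD' : 0 < D')
    (hH : 1 ≤ Height.logHeight (conj F A)) (hBr : 0 ≤ Br)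
    (h : θ * x * (2 * d) * Height.logHeight (conj F A) + Br ≤ Module.finrank ℚ K * (2 * s)) :
    θ * (x * d / (2 * D')) * (1 + absHeight (conj F A)) ≤ s := by
  have hdR : (2 : ℝ) ≤ d := by exact_mod_cast hd
  have hn1 : (1 : ℝ) ≤ Module.finrank ℚ K := by
    exact_mod_cast Module.finrank_pos (R := ℚ) (M := K)
  have h1 : absHeight (conj F A) ≤ Height.logHeight (conj F A) := by
    unfold absHeight
    rw [div_le_iff₀ (by linarith)]
    exact le_mul_of_one_le_right (by linarith) hn1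
  have h2 : (Module.finrank ℚ K : ℝ) * (2 * s) ≤ D' * (2 * s) :=
    mul_le_mul_of_nonneg_right hn (by linarith)
  have h3 : θ * x * (2 * d) * Height.logHeight (conj F A) ≤ D' * (2 * s) := by linarith
  have h4 : θ * (x * d / (2 * D')) * (1 + absHeight (conj F A)) ≤
      θ * (x * d / (2 * D')) * (2 * Height.logHeight (conj F A)) :=
    mul_le_mul_of_nonneg_left (by linarith) (by positivity)
  refine h4.trans ?_
  have e : θ * (x * d / (2 * D')) * (2 * Height.logHeight (conj F A)) =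
      (θ * x * (2 * d) * Height.logHeight (conj F A)) / (2 * D') := by
    field_simp
  rw [e, div_le_iff₀ (by positivity)]
  linarith

theorem cases (d : ℕ) (hd : 2 ≤ d) (D : ℕ) : ∃ κ C : ℝ, 0 < κ ∧ 1 ≤ C ∧
    ∀ (K : Type) [Field K] [NumberField K], Module.finrank ℚ K ≤ D →
      ∀ F : Coef K d, res F ≠ 0 → ∀ s : ℕ, (badPl F).encard ≤ s →
        ∀ θ : ℝ, 0 < θ → θ ≤ 1 →
      (∀ (N0 : ℕ) (X : Fin N0 → Fin 2 → K), (∀ i, X i ≠ 0) →
        (∀ i j, i ≠ j → wd (X i) (X j) ≠ 0) →
        C ^ (θ * s + 1) * (1 / θ * Real.log (2 / θ)) ≤ N0 →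
        ∃ τ ∈ D3 N0, θ * κ * (1 + absHeight (conj F (At X τ))) ≤
          canHeight F (X τ.1) + canHeight F (X τ.2.1) + canHeight F (X τ.2.2)) ∨
      (∀ (N0 : ℕ) (X : Fin N0 → Fin 2 → K), (∀ i, X i ≠ 0) →
        (∀ i j, i ≠ j → wd (X i) (X j) ≠ 0) → C ≤ N0 →
        ∃ τ ∈ D3 N0, absHeight (conj F (At X τ)) ≤
          C * (canHeight F (X τ.1) + canHeight F (X τ.2.1) + canHeight F (X τ.2.2) + 1)) := by
  classical
  obtain ⟨m, c, C₂, C₃, a₀, hm, hc, hC₂, hC₃, ha₀, htri⟩ := tri_main d hd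
  have hd1 : 1 ≤ d := by omega
  have hdR : (2 : ℝ) ≤ d := by exact_mod_cast hd
  set l : ℝ := Real.log (bigM d) with hl
  have hl0 : 0 ≤ l := Real.log_natCast_nonneg _
  have hD0 : (0 : ℝ) ≤ D := Nat.cast_nonneg _
  set D' : ℝ := (D : ℝ) + 1 with hD'
  have hD'0 : 0 < D' := by linarith
  -- constants
  obtain ⟨lam, hlam0, hlam1, hlam2⟩ : ∃ lam : ℝ, 0 < lam ∧ lam ≤ 1 ∧ lam ≤ c / 112 :=
    ⟨min 1 (c / 112), lt_min one_pos (by positivity), min_le_left _ _, min_le_right _ _⟩
  obtain ⟨η₀, hη0, hη1, hη2, hη3⟩ : ∃ η₀ : ℝ, 0 < η₀ ∧ η₀ ≤ 1 ∧ η₀ ≤ c / 16 ∧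
      η₀ ≤ lam * c / 2 := by
    refine ⟨min 1 (min (c / 16) (lam * c / 2)), lt_min one_pos (lt_min (by positivity)
      (by positivity)), min_le_left _ _, (min_le_right _ _).trans (min_le_left _ _),
      (min_le_right _ _).trans (min_le_right _ _)⟩
  obtain ⟨CK, hCK1, hKch⟩ := Kch_theta d hd hη0 hη1
  obtain ⟨K₁, hK11, hK13, hK1e, hK1d⟩ := hKch 1 one_pos le_rfl
  rw [one_mul] at hK1e
  set Q : ℝ := (C₂ + C₃) * D' with hQ
  have hQ0 : 0 ≤ Q := by positivity
  set C₆ : ℝ := 4 * Q / c + l * D' + 2 * d with hC₆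
  have hC₆0 : 0 < C₆ := by positivity
  have hC₆Q : 4 * Q / c ≤ C₆ := by
    have : 0 ≤ l * D' := by positivity
    rw [hC₆]
    linarith
  set C₇ : ℝ := c / 8 * C₆ + Q with hC₇
  have hC₇0 : 0 ≤ C₇ := by positivity
  have hmR : (1 : ℝ) ≤ m := by exact_mod_cast hm
  have hmD : (1 : ℝ) ≤ (m : ℝ) ^ D := one_le_pow₀ hmR
  set x : ℝ := lam * a₀ with hx
  have hx0 : 0 < x := mul_pos hlam0 ha₀
  set C : ℝ := 2 * (d : ℝ) ^ K₁ * m ^ D + CK * m ^ D * m + (2 * D' + C₇) / (2 * d * x) with hC
  have hCp1 : 0 ≤ 2 * (d : ℝ) ^ K₁ * m ^ D := by positivity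
  have hCp2 : 1 ≤ CK * m ^ D * m :=
    one_le_mul_of_one_le_of_one_le (one_le_mul_of_one_le_of_one_le hCK1 hmD) hmR
  have hCp3 : 0 ≤ (2 * D' + C₇) / (2 * d * x) := by positivity
  have hC1 : 1 ≤ C := by linarith
  have hCbig : 2 * (d : ℝ) ^ K₁ * m ^ D * 0.6931 ≤ C := by linarith
  refine ⟨x * d / (2 * D'), C, by positivity, hC1, ?_⟩
  intro K _ _ hKD F hF s hs θ hθ0 hθ1
  have hn : (Module.finrank ℚ K : ℝ) ≤ D' := by
    have : (Module.finrank ℚ K : ℝ) ≤ D := by exact_mod_cast hKD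
    linarith
  have hn0 : (0 : ℝ) ≤ Module.finrank ℚ K := Nat.cast_nonneg _
  have hRf0 := Rf_nonneg hd1 hF
  have hRi0 := Rinf_nonneg F
  have hlog2 : (0.6931 : ℝ) < Real.log 2 := by
    have := Real.log_two_gt_d9
    linarith
  have hlogθ : Real.log 2 ≤ Real.log (2 / θ) := by
    apply Real.log_le_log (by norm_num)
    rw [le_div_iff₀ hθ0]
    linarith
  have hinvθ : 1 ≤ 1 / θ := by
    rw [le_div_iff₀ hθ0]
    linarith
  have hLθ : 0.6931 ≤ 1 / θ * Real.log (2 / θ) := by
    have h1 : (0.6931 : ℝ) ≤ Real.log (2 / θ) := hlog2.le.trans hlogθ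
    have h2 : (0 : ℝ) ≤ Real.log (2 / θ) := le_trans (by norm_num) h1
    exact h1.trans (le_mul_of_one_le_left h2 hinvθ)
  -- the number of points for `T = ∅`
  have hcardE : ∀ N0 : ℕ, 2 * (d : ℝ) ^ K₁ * m ^ D * 0.6931 ≤ N0 →
      (d ^ K₁ - 1) * m ^ (Module.finrank ℚ K + (∅ : Finset (FinitePlace K)).card) < N0 := by
    intro N0 hN0
    have h1 : (d ^ K₁ - 1) * m ^ (Module.finrank ℚ K + (∅ : Finset (FinitePlace K)).card) ≤
        d ^ K₁ * m ^ D := by
      apply Nat.mul_le_mul (Nat.sub_le _ _)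
      rw [Finset.card_empty, add_zero]
      exact Nat.pow_le_pow_right hm hKD
    refine lt_of_le_of_lt h1 ?_
    have h2 : ((d ^ K₁ * m ^ D : ℕ) : ℝ) < N0 := by
      push_cast
      have h3 : 0 < (d : ℝ) ^ K₁ * m ^ D := by positivity
      linarith
    exact_mod_cast h2
  have hQn : ∀ μ : ℝ, 0 ≤ μ → μ ≤ 1 → ∀ η : ℝ, 0 ≤ η → η ≤ 1 →
      (μ * C₂ + η * C₃) * Module.finrank ℚ K ≤ Q := by
    intro μ h0 h1 η h2 h3
    have h4 : μ * C₂ + η * C₃ ≤ C₂ + C₃ :=
      add_le_add (mul_le_of_le_one_left hC₂ h1) (mul_le_of_le_one_left hC₃ h3)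
    have h5 : 0 ≤ μ * C₂ + η * C₃ := by positivity
    calc (μ * C₂ + η * C₃) * Module.finrank ℚ K ≤ (μ * C₂ + η * C₃) * D' :=
          mul_le_mul_of_nonneg_left hn h5
      _ ≤ (C₂ + C₃) * D' := mul_le_mul_of_nonneg_right h4 hD'0.le
  have heta0 : ∀ K' : ℕ, 3 ≤ d ^ K' → 0 ≤ eta K' (d ^ K') := by
    intro K' h3
    unfold eta
    have h4 : (3 : ℝ) ≤ ((d ^ K' : ℕ) : ℝ) := by exact_mod_cast h3
    exact div_nonneg (by positivity) (by linarith)
  -- heights
  have hHlow : C₆ ≤ Rf F + Rinf F → ∀ A : Matrix (Fin 2) (Fin 2) K, A.det ≠ 0 →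
      1 ≤ Height.logHeight (conj F A) := by
    intro hR A hA
    have h1 := height_low hd1 hF hA
    have h2 : l * Module.finrank ℚ K ≤ l * D' := mul_le_mul_of_nonneg_left hn hl0
    have h3 : 0 ≤ 4 * Q / c := by positivity
    have h4 : 2 * (d : ℝ) ≤ 2 * d * Height.logHeight (conj F A) := by
      rw [← hl] at h1
      linarith
    have h5 : (0 : ℝ) < 2 * d := by linarith
    by_contra hcon
    push Not at hcon
    have := mul_lt_mul_of_pos_left hcon h5
    linarith
  have hW0 : ∑ v ∈ (∅ : Finset (FinitePlace K)), rmin v.val F = 0 := Finset.sum_empty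
  by_cases hcase : Rf F ≤ Rinf F
  · by_cases hbig : C₆ ≤ Rinf F
    · -- Case A
      left
      intro N0 X hX0 hX hN0
      have hN0' : 2 * (d : ℝ) ^ K₁ * m ^ D * 0.6931 ≤ N0 := by
        refine le_trans ?_ hN0
        have h1 : 2 * (d : ℝ) ^ K₁ * m ^ D ≤ C ^ (θ * s + 1) := by
          have h2 : C ^ (1 : ℝ) ≤ C ^ (θ * s + 1) :=
            Real.rpow_le_rpow_of_exponent_le hC1 (by
              have : 0 ≤ θ * s := by positivity
              linarith)
          rw [Real.rpow_one] at h2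
          linarith
        exact mul_le_mul h1 hLθ (by norm_num) (by linarith)
      obtain ⟨τ, hτ, h⟩ := htri K F hF ∅ K₁ (d ^ K₁) N0 hK11 rfl hK13 (hcardE N0 hN0') X hX0 hX
        lam 1 hlam0 hlam1 le_rfl
      refine ⟨τ, hτ, ?_⟩
      have hH := hHlow (by linarith) _ (At_det hX hτ)
      have hη := heta0 K₁ hK13
      set η := eta K₁ (d ^ K₁) with hηdef
      have hWle := W_le hd1 hF (∅ : Finset (FinitePlace K))
      have hWnn := W_nonneg hd1 hF (∅ : Finset (FinitePlace K))
      set W := ∑ᶠ v ∈ (badPl F \ ((∅ : Finset (FinitePlace K)) : Set (FinitePlace K))),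
        rmin v.val F with hW
      have hRi : ∑ v : InfinitePlace K, (v.mult : ℝ) * max (rmin v.val F) 0 = Rinf F := rfl
      rw [hW0, hRi] at h
      have hq := hQn 1 zero_le_one le_rfl η hη (hK1e.trans hη1)
      have hBr : 0 ≤ c / 2 * 0 + (1 * c / 2 - η) * Rinf F - (7 * lam + η) * W -
          (1 * C₂ + η * C₃) * Module.finrank ℚ K := by
        have h1 : (7 * lam + η) * W ≤ (c / 16 + c / 16) * Rinf F := by
          have h2 : 7 * lam + η ≤ c / 16 + c / 16 := by linarith
          exact mul_le_mul h2 (hWle.trans hcase) hWnn (by positivity)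
        have h3 : (c / 2 - c / 16) * Rinf F ≤ (1 * c / 2 - η) * Rinf F :=
          mul_le_mul_of_nonneg_right (by linarith) hRi0
        have h4 : Q ≤ c / 4 * Rinf F := by
          have h5 : 4 * Q / c ≤ Rinf F := hC₆Q.trans hbig
          rw [div_le_iff₀ hc] at h5
          linarith
        have h6 : 0 ≤ c * Rinf F := by positivity
        linarith
      have hfin := Cas_big hd (F := F) (A := At X τ) (θ := θ)
        (Br := c / 2 * 0 + (1 * c / 2 - η) * Rinf F - (7 * lam + η) * W -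
          (1 * C₂ + η * C₃) * Module.finrank ℚ K)
        (x := x) (D' := D') hx0 hθ0 (Cas_sum_nonneg hd hF hX0 τ) hn hD'0 hH hBr (by
          have h7 : 0 ≤ x * (2 * d) * Height.logHeight (conj F (At X τ)) := by positivity
          have h8 : θ * (x * (2 * d) * Height.logHeight (conj F (At X τ))) ≤
              1 * (x * (2 * d) * Height.logHeight (conj F (At X τ))) :=
            mul_le_mul_of_nonneg_right hθ1 h7
          rw [hx] at h8 ⊢
          linarith)
      exact hfin
    · -- small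
      right
      push Not at hbig
      intro N0 X hX0 hX hN0
      have hN0' : 2 * (d : ℝ) ^ K₁ * m ^ D * 0.6931 ≤ N0 := le_trans hCbig hN0
      obtain ⟨τ, hτ, h⟩ := htri K F hF ∅ K₁ (d ^ K₁) N0 hK11 rfl hK13 (hcardE N0 hN0') X hX0 hX
        lam 1 hlam0 hlam1 le_rfl
      refine ⟨τ, hτ, ?_⟩
      have hη := heta0 K₁ hK13
      set η := eta K₁ (d ^ K₁) with hηdef
      have hWle := W_le hd1 hF (∅ : Finset (FinitePlace K))
      have hWnn := W_nonneg hd1 hF (∅ : Finset (FinitePlace K))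
      set W := ∑ᶠ v ∈ (badPl F \ ((∅ : Finset (FinitePlace K)) : Set (FinitePlace K))),
        rmin v.val F with hW
      have hRi : ∑ v : InfinitePlace K, (v.mult : ℝ) * max (rmin v.val F) 0 = Rinf F := rfl
      rw [hW0, hRi] at h
      have hq := hQn 1 zero_le_one le_rfl η hη (hK1e.trans hη1)
      have h1 : (7 * lam + η) * W ≤ (c / 16 + c / 16) * C₆ := by
        have h2 : 7 * lam + η ≤ c / 16 + c / 16 := by linarith
        exact mul_le_mul h2 (hWle.trans (hcase.trans hbig.le)) hWnn (by positivity)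
      have h3 : 0 ≤ (1 * c / 2 - η) * Rinf F := mul_nonneg (by linarith) hRi0
      set S : ℝ := canHeight F (X τ.1) + canHeight F (X τ.2.1) + canHeight F (X τ.2.2) with hS
      have hS0 : 0 ≤ S := Cas_sum_nonneg hd hF hX0 τ
      have h4 : (Module.finrank ℚ K : ℝ) * (2 * S) ≤ D' * (2 * S) :=
        mul_le_mul_of_nonneg_right hn (by linarith)
      have h5 : x * (2 * d) * Height.logHeight (conj F (At X τ)) ≤ 2 * D' * S + C₇ := by
        rw [hx]
        linarith
      have hn1 : (1 : ℝ) ≤ Module.finrank ℚ K := by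
        exact_mod_cast Module.finrank_pos (R := ℚ) (M := K)
      have h6 : absHeight (conj F (At X τ)) ≤ Height.logHeight (conj F (At X τ)) := by
        unfold absHeight
        rw [div_le_iff₀ (by linarith)]
        exact le_mul_of_one_le_right (Height.logHeight_nonneg _) hn1
      have h7 : Height.logHeight (conj F (At X τ)) ≤ (2 * D' * S + C₇) / (2 * d * x) := by
        rw [le_div_iff₀ (by positivity)]
        linarith
      refine h6.trans (h7.trans ?_)
      have h8 : (2 * D' * S + C₇) / (2 * d * x) ≤ (2 * D' + C₇) / (2 * d * x) * (S + 1) := by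
        rw [div_mul_eq_mul_div]
        apply div_le_div_of_nonneg_right _ (by positivity)
        have : 0 ≤ C₇ * S := mul_nonneg hC₇0 hS0
        linarith
      refine h8.trans (mul_le_mul_of_nonneg_right ?_ (by linarith))
      linarith
  · push Not at hcase
    by_cases hbig : C₆ ≤ Rf F
    · -- Case B
      left
      intro N0 X hX0 hX hN0
      obtain ⟨T, hTc, hTsum⟩ := select_places hd1 hF hs hθ0 hθ1
      obtain ⟨K', hK1', hK3', hKe', hKd'⟩ := hKch θ hθ0 hθ1
      have hcount : (d ^ K' - 1) * m ^ (Module.finrank ℚ K + T.card) < N0 := by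
        have h1 : ((d ^ K' - 1 : ℕ) : ℝ) < CK * (1 / θ * Real.log (2 / θ)) := by
          have h2 : 1 ≤ d ^ K' := by omega
          rw [Nat.cast_sub h2]
          push_cast
          linarith
        have h3 : (m : ℝ) ^ (Module.finrank ℚ K + T.card) ≤ (m : ℝ) ^ D * (m : ℝ) ^ (θ * s + 1) := by
          rw [pow_add]
          refine mul_le_mul (pow_le_pow_right₀ hmR hKD) ?_ (by positivity) (by positivity)
          rw [← Real.rpow_natCast]
          exact Real.rpow_le_rpow_of_exponent_le hmR hTc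
        have h4 : CK * (m : ℝ) ^ D * (m : ℝ) ^ (θ * s + 1) ≤ C ^ (θ * s + 1) := by
          have hz : 1 ≤ θ * (s : ℝ) + 1 := by
            have : 0 ≤ θ * (s : ℝ) := by positivity
            linarith
          have hq1 : 1 ≤ CK * (m : ℝ) ^ D := one_le_mul_of_one_le_of_one_le hCK1 hmD
          have h5 : CK * (m : ℝ) ^ D ≤ (CK * (m : ℝ) ^ D) ^ (θ * s + 1) := by
            have h6 := Real.rpow_le_rpow_of_exponent_le hq1 hz
            rwa [Real.rpow_one] at h6
          calc CK * (m : ℝ) ^ D * (m : ℝ) ^ (θ * s + 1)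
              ≤ (CK * (m : ℝ) ^ D) ^ (θ * s + 1) * (m : ℝ) ^ (θ * s + 1) :=
                mul_le_mul_of_nonneg_right h5 (by positivity)
            _ = (CK * (m : ℝ) ^ D * m) ^ (θ * s + 1) := by
                exact (Real.mul_rpow (by positivity) (by positivity)).symm
            _ ≤ C ^ (θ * s + 1) := Real.rpow_le_rpow (by positivity) (by linarith) (by linarith)
        have hLpos : 0 < 1 / θ * Real.log (2 / θ) := by linarith
        have h7 : ((d ^ K' - 1 : ℕ) : ℝ) * (m : ℝ) ^ (Module.finrank ℚ K + T.card) < N0 := by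
          have h8 : 0 < (m : ℝ) ^ (Module.finrank ℚ K + T.card) := by positivity
          calc ((d ^ K' - 1 : ℕ) : ℝ) * (m : ℝ) ^ (Module.finrank ℚ K + T.card)
              < CK * (1 / θ * Real.log (2 / θ)) * (m : ℝ) ^ (Module.finrank ℚ K + T.card) :=
                mul_lt_mul_of_pos_right h1 h8
            _ ≤ CK * (1 / θ * Real.log (2 / θ)) * ((m : ℝ) ^ D * (m : ℝ) ^ (θ * s + 1)) :=
                mul_le_mul_of_nonneg_left h3 (by positivity)
            _ = CK * (m : ℝ) ^ D * (m : ℝ) ^ (θ * s + 1) * (1 / θ * Real.log (2 / θ)) := by ring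
            _ ≤ C ^ (θ * s + 1) * (1 / θ * Real.log (2 / θ)) :=
                mul_le_mul_of_nonneg_right h4 hLpos.le
            _ ≤ N0 := hN0
        exact_mod_cast h7
      have hl1 : 0 < θ * lam := mul_pos hθ0 hlam0
      have hl2 : θ * lam ≤ 1 := mul_le_one₀ hθ1 hlam0.le hlam1
      obtain ⟨τ, hτ, h⟩ := htri K F hF T K' (d ^ K') N0 hK1' rfl hK3' hcount X hX0 hX
        (θ * lam) (θ * lam) hl1 le_rfl hl2
      refine ⟨τ, hτ, ?_⟩
      have hH := hHlow (by linarith) _ (At_det hX hτ)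
      have hη := heta0 K' hK3'
      set η := eta K' (d ^ K') with hηdef
      have hWle := W_le hd1 hF T
      have hWnn := W_nonneg hd1 hF T
      set W := ∑ᶠ v ∈ (badPl F \ (T : Set (FinitePlace K))), rmin v.val F with hW
      have hRi : ∑ v : InfinitePlace K, (v.mult : ℝ) * max (rmin v.val F) 0 = Rinf F := rfl
      rw [hRi] at h
      have hBr : 0 ≤ c / 2 * ∑ v ∈ T, rmin v.val F + (θ * lam * c / 2 - η) * Rinf F -
          (7 * (θ * lam) + η) * W - (θ * lam * C₂ + η * C₃) * Module.finrank ℚ K := by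
        have h1 : (7 * (θ * lam) + η) * W ≤ θ * (c / 16 + c / 16) * Rf F := by
          have h2 : 7 * (θ * lam) + η ≤ θ * (c / 16 + c / 16) := by
            have h3 : θ * lam ≤ θ * (c / 112) := mul_le_mul_of_nonneg_left hlam2 hθ0.le
            have h4 : θ * η₀ ≤ θ * (c / 16) := mul_le_mul_of_nonneg_left hη2 hθ0.le
            linarith
          exact mul_le_mul h2 hWle hWnn (by positivity)
        have h3 : 0 ≤ (θ * lam * c / 2 - η) * Rinf F := by
          refine mul_nonneg ?_ hRi0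
          have h4 : θ * η₀ ≤ θ * (lam * c / 2) := mul_le_mul_of_nonneg_left hη3 hθ0.le
          linarith
        have h5 : c / 2 * (θ * Rf F) ≤ c / 2 * ∑ v ∈ T, rmin v.val F :=
          mul_le_mul_of_nonneg_left hTsum (by linarith)
        have h6 : Q ≤ c / 4 * Rf F := by
          have h7 : 4 * Q / c ≤ Rf F := hC₆Q.trans hbig
          rw [div_le_iff₀ hc] at h7
          linarith
        have h8 : (θ * lam * C₂ + η * C₃) * Module.finrank ℚ K ≤ θ * Q := by
          have h9 : θ * lam * C₂ + η * C₃ ≤ θ * (C₂ + C₃) := by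
            have h10 : θ * lam * C₂ ≤ θ * C₂ := by
              have : lam * C₂ ≤ 1 * C₂ := mul_le_mul_of_nonneg_right hlam1 hC₂
              have := mul_le_mul_of_nonneg_left this hθ0.le
              linarith
            have h11 : η * C₃ ≤ θ * C₃ := by
              refine mul_le_mul_of_nonneg_right ?_ hC₃
              exact hKe'.trans (mul_le_of_le_one_right hθ0.le hη1)
            linarith
          have h12 : 0 ≤ θ * lam * C₂ + η * C₃ := by positivity
          calc (θ * lam * C₂ + η * C₃) * Module.finrank ℚ K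
              ≤ (θ * lam * C₂ + η * C₃) * D' := mul_le_mul_of_nonneg_left hn h12
            _ ≤ θ * (C₂ + C₃) * D' := mul_le_mul_of_nonneg_right h9 hD'0.le
            _ = θ * Q := by rw [hQ]; ring
        have h13 : θ * Q ≤ θ * (c / 4 * Rf F) := mul_le_mul_of_nonneg_left h6 hθ0.le
        have h14 : 0 ≤ θ * (c * Rf F) := by positivity
        linarith
      have hfin := Cas_big hd (F := F) (A := At X τ) (θ := θ)
        (Br := c / 2 * ∑ v ∈ T, rmin v.val F + (θ * lam * c / 2 - η) * Rinf F -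
          (7 * (θ * lam) + η) * W - (θ * lam * C₂ + η * C₃) * Module.finrank ℚ K)
        (x := x) (D' := D') hx0 hθ0 (Cas_sum_nonneg hd hF hX0 τ) hn hD'0 hH hBr (by
          rw [hx]
          refine le_trans (le_of_eq ?_) h
          ring)
      exact hfin
    · -- small
      right
      push Not at hbig
      intro N0 X hX0 hX hN0
      have hN0' : 2 * (d : ℝ) ^ K₁ * m ^ D * 0.6931 ≤ N0 := le_trans hCbig hN0
      obtain ⟨τ, hτ, h⟩ := htri K F hF ∅ K₁ (d ^ K₁) N0 hK11 rfl hK13 (hcardE N0 hN0') X hX0 hX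
        lam 1 hlam0 hlam1 le_rfl
      refine ⟨τ, hτ, ?_⟩
      have hη := heta0 K₁ hK13
      set η := eta K₁ (d ^ K₁) with hηdef
      have hWle := W_le hd1 hF (∅ : Finset (FinitePlace K))
      have hWnn := W_nonneg hd1 hF (∅ : Finset (FinitePlace K))
      set W := ∑ᶠ v ∈ (badPl F \ ((∅ : Finset (FinitePlace K)) : Set (FinitePlace K))),
        rmin v.val F with hW
      have hRi : ∑ v : InfinitePlace K, (v.mult : ℝ) * max (rmin v.val F) 0 = Rinf F := rfl
      rw [hW0, hRi] at h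
      have hq := hQn 1 zero_le_one le_rfl η hη (hK1e.trans hη1)
      have h1 : (7 * lam + η) * W ≤ (c / 16 + c / 16) * C₆ := by
        have h2 : 7 * lam + η ≤ c / 16 + c / 16 := by linarith
        exact mul_le_mul h2 (hWle.trans hbig.le) hWnn (by positivity)
      have h3 : 0 ≤ (1 * c / 2 - η) * Rinf F := mul_nonneg (by linarith) hRi0
      set S : ℝ := canHeight F (X τ.1) + canHeight F (X τ.2.1) + canHeight F (X τ.2.2) with hS
      have hS0 : 0 ≤ S := Cas_sum_nonneg hd hF hX0 τ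
      have h4 : (Module.finrank ℚ K : ℝ) * (2 * S) ≤ D' * (2 * S) :=
        mul_le_mul_of_nonneg_right hn (by linarith)
      have h5 : x * (2 * d) * Height.logHeight (conj F (At X τ)) ≤ 2 * D' * S + C₇ := by
        rw [hx]
        linarith
      have hn1 : (1 : ℝ) ≤ Module.finrank ℚ K := by
        exact_mod_cast Module.finrank_pos (R := ℚ) (M := K)
      have h6 : absHeight (conj F (At X τ)) ≤ Height.logHeight (conj F (At X τ)) := by
        unfold absHeight
        rw [div_le_iff₀ (by linarith)]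
        exact le_mul_of_one_le_right (Height.logHeight_nonneg _) hn1
      have h7 : Height.logHeight (conj F (At X τ)) ≤ (2 * D' * S + C₇) / (2 * d * x) := by
        rw [le_div_iff₀ (by positivity)]
        linarith
      refine h6.trans (h7.trans ?_)
      have h8 : (2 * D' * S + C₇) / (2 * d * x) ≤ (2 * D' + C₇) / (2 * d * x) * (S + 1) := by
        rw [div_mul_eq_mul_div]
        apply div_le_div_of_nonneg_right _ (by positivity)
        have : 0 ≤ C₇ * S := mul_nonneg hC₇0 hS0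
        linarith
      refine h8.trans (mul_le_mul_of_nonneg_right ?_ (by linarith))
      linarith

end Pool.Agent.LNG2
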