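import Pool.Agent.LNG2.Cas
import Pool.Agent.LNG.PsU
import Pool.Agent.LNG.MR2
import Pool.Agent.LNG.Mo2

/-!
# The number of points of small canonical height
-/

namespace Pool.Agent.LNG2

open Polynomial NumberField IsDedekindDomain Pool.Agent.LNG

/-- `max(log N(R_φ), h_M(φ), 1 + h(φ^A))`. -/
noncomputable def size {K : Type} [Field K] [NumberField K] {d : ℕ} (M : ModInt d) (F : Coef K d)
    (A : Matrix (Fin 2) (Fin 2) K) : ℝ :=
  max (max (Real.log (Ideal.absNorm (minRes F))) (modH M F)) (1 + absHeight (conj F A))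

theorem absHeight_nonneg' {K : Type} [Field K] [NumberField K] {ι : Type} [Finite ι]
    (x : ι → K) : 0 ≤ absHeight x :=
  div_nonneg (Height.logHeight_nonneg x) (Nat.cast_nonneg _)

theorem size_le (d : ℕ) (hd : 2 ≤ d) (D : ℕ) (M : ModInt d) :
    ∃ E : ℝ, 1 ≤ E ∧ ∀ (K : Type) [Field K] [NumberField K], Module.finrank ℚ K ≤ D →
      ∀ F : Coef K d, res F ≠ 0 → ∀ A : Matrix (Fin 2) (Fin 2) K, A.det ≠ 0 →
        size M F A ≤ E * (1 + absHeight (conj F A)) := by
  have hd1 : 1 ≤ d := le_trans (by norm_num) hd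
  have hd0 : (0 : ℝ) < d := by exact_mod_cast (show 0 < d by omega)
  have hbig : 0 ≤ Real.log (bigM d) := Real.log_natCast_nonneg _
  obtain ⟨C, hC, hmod⟩ := modH_le hd1 M
  have hD0 : (0 : ℝ) ≤ D := Nat.cast_nonneg _
  set B : ℝ := D * (2 * d + Real.log (bigM d)) with hB
  have hBnn : 0 ≤ B := by
    rw [hB]
    exact mul_nonneg hD0 (by linarith)
  set E : ℝ := 1 + B + M.e + C with hE
  have he : (0 : ℝ) ≤ M.e := Nat.cast_nonneg _
  have hE1 : 1 ≤ E := by rw [hE]; linarith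
  refine ⟨E, hE1, ?_⟩
  intro K _ _ hK F hF A hA
  have hn : (0 : ℝ) < Module.finrank ℚ K := Nat.cast_pos.mpr Module.finrank_pos
  have hnD : (Module.finrank ℚ K : ℝ) ≤ D := by exact_mod_cast hK
  have hh := absHeight_nonneg' (conj F A)
  have h1 : Real.log (Ideal.absNorm (minRes F)) ≤ B * (1 + absHeight (conj F A)) := by
    have h1 := log_minRes_le hd1 hF hA
    have h2 : Height.logHeight (conj F A) = Module.finrank ℚ K * absHeight (conj F A) := by
      unfold absHeight
      field_simp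
    rw [h2] at h1
    have h4 : 2 * (d : ℝ) * (Module.finrank ℚ K * absHeight (conj F A)) +
        Module.finrank ℚ K * Real.log (bigM d) ≤
        D * (2 * d * absHeight (conj F A) + Real.log (bigM d)) := by
      have h5 : 0 ≤ 2 * (d : ℝ) * absHeight (conj F A) + Real.log (bigM d) := by positivity
      nlinarith [mul_le_mul_of_nonneg_right hnD h5]
    refine h1.trans (h4.trans ?_)
    rw [hB]
    nlinarith [mul_nonneg hD0 (mul_nonneg hbig hh), mul_nonneg hD0 hd0.le]
  have h2 := hmod K F hF A hA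
  unfold size
  refine max_le (max_le ?_ ?_) ?_
  · refine le_trans h1 (mul_le_mul_of_nonneg_right ?_ (by linarith))
    rw [hE]; linarith
  · refine le_trans h2 ?_
    rw [hE]
    nlinarith [mul_nonneg hBnn hh, mul_nonneg hC hh]
  · rw [hE]
    nlinarith [mul_nonneg hBnn hh, mul_nonneg hC hh, mul_nonneg he hh]

/-- Few points when the height of the map is bounded. -/
theorem few_points (d : ℕ) (hd : 2 ≤ d) (D : ℕ) (H : ℝ) : ∃ N : ℕ,
    ∀ (K : Type) [Field K] [NumberField K], Module.finrank ℚ K ≤ D →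
      ∀ F : Coef K d, res F ≠ 0 → ∀ A : Matrix (Fin 2) (Fin 2) K, A.det ≠ 0 →
        absHeight (conj F A) ≤ H →
        ∀ (N0 : ℕ) (X : Fin N0 → Fin 2 → K), (∀ i, X i ≠ 0) →
          (∀ i j, i ≠ j → wd (X i) (X j) ≠ 0) → (∀ i, canHeight F (X i) ≤ 1) → N0 ≤ N := by
  obtain ⟨C, hC0, hC⟩ := call_silverman d hd
  obtain ⟨N, hN⟩ := count_points D (1 + C * (1 + H))
  refine ⟨N, ?_⟩
  intro K _ _ hK F hF A hA hH N0 X hX0 hX hle
  by_contra hcon
  push Not at hcon
  have hu : IsUnit A.det := isUnit_iff_ne_zero.mpr hA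
  have hres : res (conj F A) ≠ 0 := by
    rw [res_conj F hA]
    exact mul_ne_zero (pow_ne_zero _ hA) hF
  have hback : ∀ P : Fin 2 → K, A.mulVec (A⁻¹.mulVec P) = P := by
    intro P
    rw [Matrix.mulVec_mulVec, Matrix.mul_nonsing_inv A hu, Matrix.one_mulVec]
  have h0 : 0 < N0 := by omega
  let Y : ℕ → Fin 2 → K := fun i => if h : i < N0 then A⁻¹.mulVec (X ⟨i, h⟩) else 0
  have hY : ∀ i (h : i < N0), Y i = A⁻¹.mulVec (X ⟨i, h⟩) := fun i h => by
    simp only [Y, dif_pos h]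
  have hYp : ∀ i, i ≤ N → Y i ≠ 0 ∧ absHeight (Y i) ≤ 1 + C * (1 + H) := by
    intro i hi
    have hi' : i < N0 := by omega
    rw [hY i hi']
    have hne : A⁻¹.mulVec (X ⟨i, hi'⟩) ≠ 0 := by
      intro h
      have h1 := hback (X ⟨i, hi'⟩)
      rw [h, Matrix.mulVec_zero] at h1
      exact hX0 _ h1.symm
    refine ⟨hne, ?_⟩
    have h1 := hC K (conj F A) hres _ hne
    rw [canHeight_conj hd hF hne hA, hback] at h1
    have h2 := hle ⟨i, hi'⟩
    have h3 := (abs_le.1 h1).2
    have h4 : C * (1 + absHeight (conj F A)) ≤ C * (1 + H) :=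
      mul_le_mul_of_nonneg_left (by linarith) hC0
    linarith
  obtain ⟨i, j, hij, hj, hwd⟩ := hN K hK Y hYp
  have hj' : j < N0 := by omega
  have hi' : i < N0 := by omega
  rw [hY i hi', hY j hj'] at hwd
  apply hX ⟨i, hi'⟩ ⟨j, hj'⟩ (by
    intro h
    rw [Fin.mk.injEq] at h
    omega)
  rw [← hback (X ⟨i, hi'⟩), ← hback (X ⟨j, hj'⟩), wd_mulVec, hwd, mul_zero]

theorem count_main (d : ℕ) (hd : 2 ≤ d) (D : ℕ) (M : ModInt d) :
    ∃ C : ℝ, 1 ≤ C ∧ ∀ (K : Type) [Field K] [NumberField K], Module.finrank ℚ K ≤ D →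
      ∀ F : Coef K d, res F ≠ 0 → ∀ s : ℕ, (badPl F).encard ≤ s →
        ∀ θ : ℝ, 0 < θ → θ ≤ 1 →
      ∀ (N0 : ℕ) (X : Fin N0 → Fin 2 → K), (∀ i, X i ≠ 0) →
        (∀ i j, i ≠ j → wd (X i) (X j) ≠ 0) →
        (∀ i, ∀ A : Matrix (Fin 2) (Fin 2) K, A.det ≠ 0 →
          canHeight F (X i) < θ / C * size M F A) →
        (N0 : ℝ) ≤ C ^ (θ * s + 1) * (1 / θ * Real.log (2 / θ)) := by
  obtain ⟨κ, Cc, hκ, hCc, hcases⟩ := cases d hd D
  obtain ⟨E, hE, hsize⟩ := size_le d hd D M
  obtain ⟨N₃, hN₃⟩ := few_points d hd D (1 + 2 * Cc)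
  have hN₃0 : (0 : ℝ) ≤ N₃ := Nat.cast_nonneg _
  have hE0 : 0 < E := by linarith
  set C : ℝ := 2 * Cc + 3 * E / κ + 6 * Cc * E + E * (2 + 2 * Cc) + 2 * N₃ with hC
  have hp1 : 0 ≤ 3 * E / κ := by positivity
  have hp2 : 0 ≤ 6 * Cc * E := by positivity
  have hp3 : 0 ≤ E * (2 + 2 * Cc) := by positivity
  have hC1 : 1 ≤ C := by linarith
  have hC0 : 0 < C := by linarith
  refine ⟨C, hC1, ?_⟩
  intro K _ _ hKD F hF s hs θ hθ0 hθ1 N0 X hX0 hX hsmall
  by_contra hcon
  push Not at hcon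
  have hlog2 : (0.6931 : ℝ) < Real.log 2 := by
    have := Real.log_two_gt_d9
    linarith
  have hlogθ : Real.log 2 ≤ Real.log (2 / θ) := by
    apply Real.log_le_log (by norm_num)
    rw [le_div_iff₀ hθ0]
    linarith
  have hinvθ : 1 ≤ 1 / θ := by
    rw [le_div_iff₀ hθ0]
    linarith
  have hLθ : 0.6931 ≤ 1 / θ * Real.log (2 / θ) := by nlinarith
  have hz : 1 ≤ θ * (s : ℝ) + 1 := by
    have : 0 ≤ θ * (s : ℝ) := by positivity
    linarith
  have hCz : C ≤ C ^ (θ * s + 1) := by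
    have h2 := Real.rpow_le_rpow_of_exponent_le hC1 hz
    rwa [Real.rpow_one] at h2
  have hN0C : 0.6931 * C ≤ N0 := by
    have h1 : C * 0.6931 ≤ C ^ (θ * s + 1) * (1 / θ * Real.log (2 / θ)) :=
      mul_le_mul hCz hLθ (by norm_num) (by linarith)
    linarith
  -- bound for the heights in terms of the triple
  have hb : ∀ A : Matrix (Fin 2) (Fin 2) K, A.det ≠ 0 → ∀ i,
      canHeight F (X i) ≤ θ / C * (E * (1 + absHeight (conj F A))) := by
    intro A hA i
    exact (hsmall i A hA).le.trans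
      (mul_le_mul_of_nonneg_left (hsize K hKD F hF A hA) (by positivity))
  rcases hcases K hKD F hF s hs θ hθ0 hθ1 with hbig | hsm
  · have h1 : Cc ^ (θ * s + 1) * (1 / θ * Real.log (2 / θ)) ≤ N0 := by
      refine le_trans ?_ hcon.le
      refine mul_le_mul_of_nonneg_right ?_ (by linarith)
      exact Real.rpow_le_rpow (by linarith) (by linarith) (by linarith)
    obtain ⟨τ, hτ, h⟩ := hbig N0 X hX0 hX h1
    have hA := At_det hX hτ
    have hh := absHeight_nonneg' (conj F (At X τ))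
    set a := absHeight (conj F (At X τ)) with ha
    have b1 := hsize K hKD F hF _ hA
    have c1 := hsmall τ.1 _ hA
    have c2 := hsmall τ.2.1 _ hA
    have c3 := hsmall τ.2.2 _ hA
    have h2 : θ / C * size M F (At X τ) ≤ θ / C * (E * (1 + a)) :=
      mul_le_mul_of_nonneg_left b1 (by positivity)
    have h3 : 3 * (θ / C * (E * (1 + a))) ≤ θ * κ * (1 + a) := by
      have h4 : 3 * E / κ ≤ C := by linarith
      rw [div_le_iff₀ hκ] at h4
      have h5 : 3 * (θ / C * (E * (1 + a))) = θ * (3 * E / C) * (1 + a) := by ring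
      rw [h5]
      refine mul_le_mul_of_nonneg_right ?_ (by linarith)
      refine mul_le_mul_of_nonneg_left ?_ hθ0.le
      rw [div_le_iff₀ hC0]
      linarith
    linarith
  · have h1 : Cc ≤ N0 := by
      nlinarith
    obtain ⟨τ, hτ, h⟩ := hsm N0 X hX0 hX h1
    have hA := At_det hX hτ
    have hh := absHeight_nonneg' (conj F (At X τ))
    have hb' := hb _ hA
    set a := absHeight (conj F (At X τ)) with ha
    have hθE : ∀ i, canHeight F (X i) ≤ E / C * (1 + a) := by
      intro i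
      refine (hb' i).trans ?_
      have h5 : θ / C * (E * (1 + a)) = θ * (E / C * (1 + a)) := by ring
      rw [h5]
      have h6 : 0 ≤ E / C * (1 + a) := by positivity
      nlinarith
    have c1 := hθE τ.1
    have c2 := hθE τ.2.1
    have c3 := hθE τ.2.2
    have h7 : Cc * (3 * (E / C * (1 + a))) ≤ (1 + a) / 2 := by
      have h8 : Cc * (3 * (E / C * (1 + a))) = (3 * Cc * E / C) * (1 + a) := by ring
      rw [h8]
      have h9 : 3 * Cc * E / C ≤ 1 / 2 := by
        rw [div_le_iff₀ hC0]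
        linarith
      have := mul_le_mul_of_nonneg_right h9 (by linarith : 0 ≤ 1 + a)
      linarith
    have h10 : Cc * (canHeight F (X τ.1) + canHeight F (X τ.2.1) + canHeight F (X τ.2.2) + 1) ≤
        Cc * (3 * (E / C * (1 + a))) + Cc := by
      have h11 : canHeight F (X τ.1) + canHeight F (X τ.2.1) + canHeight F (X τ.2.2) + 1 ≤
          3 * (E / C * (1 + a)) + 1 := by linarith
      have := mul_le_mul_of_nonneg_left h11 (by linarith : 0 ≤ Cc)
      linarith
    have ha2 : a ≤ 1 + 2 * Cc := by linarith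
    have hle1 : ∀ i, canHeight F (X i) ≤ 1 := by
      intro i
      refine (hθE i).trans ?_
      have h12 : E / C * (1 + a) ≤ E / C * (2 + 2 * Cc) :=
        mul_le_mul_of_nonneg_left (by linarith) (by positivity)
      refine h12.trans ?_
      rw [div_mul_eq_mul_div, div_le_iff₀ hC0]
      linarith
    have hfin := hN₃ K hKD F hF _ hA ha2 N0 X hX0 hX hle1
    have h13 : (N0 : ℝ) ≤ N₃ := by exact_mod_cast hfin
    nlinarith

end Pool.Agent.LNG2
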