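import Pool.Agent.LNG2.BkA
import Pool.Agent.LNG.Lcg
import Pool.Agent.LNG.Grr

/-!
# Local inequalities for all triples

`η = 6 (K'+1)/(N-1)`, `N = d^K'`.
-/

namespace Pool.Agent.LNG2

open Polynomial NumberField IsDedekindDomain Pool.Agent.LNG

variable {K : Type} [Field K] [NumberField K] {d : ℕ}

/-- The loss of the Baker inequality. -/
noncomputable def eta (K' N : ℕ) : ℝ := 6 * ((K' : ℝ) + 1) / ((N : ℝ) - 1)

theorem LoI_loc {c C₁ l a R S M : ℝ} (hc : 0 < c) (hl : 0 ≤ l) (ha : 0 ≤ a) (hac : a ≤ c / 2)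
    (hR : M - l ≤ R) (hR2 : -l ≤ R) (h : c * R - C₁ ≤ S) :
    a * R + (c / 2 * M - (C₁ + c * l)) ≤ S := by
  have h1 : 0 ≤ (c / 2) * (R - (M - l)) := mul_nonneg (by linarith) (by linarith)
  have h2 : 0 ≤ (c / 2 - a) * (R + l) := mul_nonneg (by linarith) (by linarith)
  have h3 : 0 ≤ a * l := mul_nonneg ha hl
  nlinarith

/-- Any absolute value, coloured triples with an additive constant. -/
theorem loc_inf (hd : 2 ≤ d) (v : AbsoluteValue K ℝ) {F : Coef K d} (hF : res F ≠ 0) (K' N : ℕ)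
    (hN : N = d ^ K') (hN3 : 3 ≤ N) (X : Fin N → Fin 2 → K)
    (hX0 : ∀ i, X i ≠ 0) (hX : ∀ i j, i ≠ j → wd (X i) (X j) ≠ 0) {c C₁ a μ : ℝ}
    (hc : 0 < c) (ha : 0 ≤ a) (h0 : 0 < μ) (h1 : μ ≤ 1) (hac : a ≤ μ * c / 2)
    (hcol : ∀ τ ∈ D3 N, c * rr v (conj F (At X τ)) - C₁ ≤ St v F X τ) :
    a * ∑ τ ∈ D3 N, rr v (conj F (At X τ)) + (D3 N).card *
        (μ * (c / 2 * max (rmin v F) 0 - (C₁ + c * Real.log (bigM d))) -
          eta K' N * (max (rmin v F) 0 + (3 * Real.log (bigM d) + Real.log d))) ≤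
      ∑ τ ∈ D3 N, St v F X τ := by
  have hd1 : 1 ≤ d := by omega
  set l : ℝ := Real.log (bigM d) with hl
  have hl0 : 0 ≤ l := Real.log_natCast_nonneg _
  have hld : 0 ≤ Real.log d := Real.log_natCast_nonneg _
  set M : ℝ := max (rmin v F) 0 with hM
  have hM0 : 0 ≤ M := le_max_right _ _
  have hres : ∀ τ ∈ D3 N, res (conj F (At X τ)) ≠ 0 := by
    intro τ hτ
    have hdet := At_det hX hτ
    rw [res_conj F hdet]
    exact mul_ne_zero (pow_ne_zero _ hdet) hF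
  have hRl : ∀ τ ∈ D3 N, -l ≤ rr v (conj F (At X τ)) :=
    fun τ hτ => rr_ge_all hd1 (hres τ hτ) v
  have hRM : ∀ τ ∈ D3 N, M - l ≤ rr v (conj F (At X τ)) := by
    intro τ hτ
    have hRm : rmin v F ≤ rr v (conj F (At X τ)) := rmin_le hd1 v hF (At_det hX hτ)
    have hR2 := hRl τ hτ
    rcases max_cases (rmin v F) 0 with ⟨h, -⟩ | ⟨h, -⟩
    · rw [hM, h]; linarith
    · rw [hM, h]; linarith
  have hNR : (3 : ℝ) ≤ N := by exact_mod_cast hN3
  have hcard : ((D3 N).card : ℝ) = (N : ℝ) * (N - 1) * (N - 2) := card_D3 N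
  -- first bound
  have s1 : a * ∑ τ ∈ D3 N, rr v (conj F (At X τ)) + (D3 N).card *
      (μ * (c / 2 * M - (C₁ + c * l))) ≤ μ * ∑ τ ∈ D3 N, St v F X τ := by
    rw [Finset.mul_sum, Finset.mul_sum, ← nsmul_eq_mul, ← Finset.sum_const,
      ← Finset.sum_add_distrib]
    refine Finset.sum_le_sum fun τ hτ => ?_
    have h2 := LoI_loc (c := μ * c) (C₁ := μ * C₁) (l := l) (a := a) (S := μ * St v F X τ)
      (mul_pos h0 hc) hl0 ha hac (hRM τ hτ) (hRl τ hτ) (by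
        have := mul_le_mul_of_nonneg_left (hcol τ hτ) h0.le
        linarith)
    linarith
  -- second bound
  have e1 : ∑ τ ∈ D3 N, St v F X τ = 6 * ((N : ℝ) - 2) *
      ∑ i, ∑ j ∈ Finset.Ioi i, gg v F (X i) (X j) :=
    sum_trip (fun i j => gg v F (X i) (X j)) (fun i j => gg_comm v F (X i) (X j))
  have b1 := baker_min_all hd v hF K' N hN X hX0 (fun i j hij => hX i j hij.ne)
  have hlogN : Real.log N = K' * Real.log d := by
    rw [hN]
    push_cast
    rw [Real.log_pow]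
  have s2 : -(6 * ((N : ℝ) - 2) * (N * (K' + 1) * (M + (3 * l + Real.log d)))) ≤
      ∑ τ ∈ D3 N, St v F X τ := by
    rw [e1]
    have h6 : 0 ≤ 6 * ((N : ℝ) - 2) := by linarith
    have h7 := mul_le_mul_of_nonneg_left b1 h6
    refine le_trans ?_ h7
    rw [← mul_neg]
    refine mul_le_mul_of_nonneg_left ?_ h6
    rw [neg_le_neg_iff, hlogN]
    have h8 : rmin v F ≤ M := le_max_left _ _
    have hK0 : (0 : ℝ) ≤ K' := Nat.cast_nonneg _
    have hN0 : (0 : ℝ) ≤ N := by linarith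
    have h9 : (N : ℝ) * K' * (rmin v F + 3 * l) ≤ (N : ℝ) * K' * (M + 3 * l) :=
      mul_le_mul_of_nonneg_left (by linarith) (by positivity)
    have h10 : 0 ≤ (N : ℝ) * (M + (3 * l + Real.log d)) := by positivity
    nlinarith
  set B : ℝ := M + (3 * l + Real.log d) with hB
  have hB0 : 0 ≤ B := by positivity
  have hη : ((D3 N).card : ℝ) * (eta K' N * B) = 6 * ((N : ℝ) - 2) * (N * (K' + 1) * B) := by
    rw [hcard]
    unfold eta
    have : (N : ℝ) - 1 ≠ 0 := by linarith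
    field_simp
  have hη0 : 0 ≤ 6 * ((N : ℝ) - 2) * (N * (K' + 1) * B) := by
    have : 0 ≤ (N : ℝ) - 2 := by linarith
    positivity
  have t2 := mul_le_mul_of_nonneg_left s2 (sub_nonneg.mpr h1)
  have t3 : 0 ≤ μ * (6 * ((N : ℝ) - 2) * (N * (K' + 1) * B)) := mul_nonneg h0.le hη0
  have e5 : a * ∑ τ ∈ D3 N, rr v (conj F (At X τ)) + (D3 N).card *
      (μ * (c / 2 * M - (C₁ + c * l)) - eta K' N * B) =
      a * ∑ τ ∈ D3 N, rr v (conj F (At X τ)) + (D3 N).card *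
      (μ * (c / 2 * M - (C₁ + c * l))) - (D3 N).card * (eta K' N * B) := by ring
  rw [e5, hη]
  nlinarith

/-- Finite places with coloured triples. -/
theorem loc_T (hd : 2 ≤ d) (v : FinitePlace K) {F : Coef K d} (hF : res F ≠ 0) (N : ℕ)
    (X : Fin N → Fin 2 → K) (hX : ∀ i j, i ≠ j → wd (X i) (X j) ≠ 0) {c a : ℝ}
    (hc : 0 < c) (hac : a ≤ c / 2)
    (hcol : ∀ τ ∈ D3 N, c * rr v.val (conj F (At X τ)) ≤ St v.val F X τ) :
    a * ∑ τ ∈ D3 N, rr v.val (conj F (At X τ)) + (D3 N).card * (c / 2 * rmin v.val F) ≤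
      ∑ τ ∈ D3 N, St v.val F X τ := by
  have hd1 : 1 ≤ d := by omega
  rw [Finset.mul_sum, ← nsmul_eq_mul, ← Finset.sum_const, ← Finset.sum_add_distrib]
  refine Finset.sum_le_sum fun τ hτ => ?_
  have h1 := hcol τ hτ
  have hRm : rmin v.val F ≤ rr v.val (conj F (At X τ)) := rmin_le hd1 v.val hF (At_det hX hτ)
  have hr := rmin_nonneg hd1 v hF
  have h2 : a * rr v.val (conj F (At X τ)) ≤ c / 2 * rr v.val (conj F (At X τ)) :=
    mul_le_mul_of_nonneg_right hac (by linarith)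
  have h3 : c / 2 * rmin v.val F ≤ c / 2 * rr v.val (conj F (At X τ)) :=
    mul_le_mul_of_nonneg_left hRm (by linarith)
  linarith

/-- Arbitrary finite places. -/
theorem loc_fin (hd : 2 ≤ d) (v : FinitePlace K) {F : Coef K d} (hF : res F ≠ 0) (K' N : ℕ)
    (hK' : 1 ≤ K') (hN : N = d ^ K') (hN3 : 3 ≤ N) (X : Fin N → Fin 2 → K)
    (hX0 : ∀ i, X i ≠ 0) (hX : ∀ i j, i ≠ j → wd (X i) (X j) ≠ 0) {lam a : ℝ} (h0 : 0 ≤ lam)
    (h1 : lam ≤ 1) (ha : a ≤ lam / ((d : ℝ) ^ 2 + d)) :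
    a * ∑ τ ∈ D3 N, rr v.val (conj F (At X τ)) -
        (D3 N).card * (7 * lam + eta K' N) * rmin v.val F ≤
      ∑ τ ∈ D3 N, St v.val F X τ := by
  have hd1 : 1 ≤ d := by omega
  have h := loc_good hd v hF K' N hK' hN X hX0 hX h0 h1
  have hNR : (3 : ℝ) ≤ N := by exact_mod_cast hN3
  have hcard : ((D3 N).card : ℝ) = (N : ℝ) * (N - 1) * (N - 2) := card_D3 N
  have hη : ((D3 N).card : ℝ) * eta K' N = 6 * ((N : ℝ) - 2) * N * (K' + 1) := by
    rw [hcard]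
    unfold eta
    have : (N : ℝ) - 1 ≠ 0 := by linarith
    field_simp
  have hS : 0 ≤ ∑ τ ∈ D3 N, rr v.val (conj F (At X τ)) := by
    refine Finset.sum_nonneg fun τ hτ => ?_
    have hRm : rmin v.val F ≤ rr v.val (conj F (At X τ)) := rmin_le hd1 v.val hF (At_det hX hτ)
    exact (rmin_nonneg hd1 v hF).trans hRm
  have h2 := mul_le_mul_of_nonneg_right ha hS
  have e : ((D3 N).card : ℝ) * (7 * lam + eta K' N) * rmin v.val F =
      (7 * lam * (D3 N).card + 6 * (N - 2) * N * (K' + 1)) * rmin v.val F := by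
    rw [mul_add, hη]
    ring
  rw [e]
  linarith

end Pool.Agent.LNG2
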