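import Pool.Agent.LNG.MR2
import Pool.Agent.LNG.Rmf

/-!
# The number of bad primes and the norm of the minimal resultant
-/

namespace Pool.Agent.LNG2

open Polynomial NumberField IsDedekindDomain Pool.Agent.LNG

variable {K : Type} [Field K] [NumberField K] {d : ℕ}

theorem fiber_le (n : ℕ) (hn : 2 ≤ n) (S : Finset (HeightOneSpectrum (𝓞 K)))
    (hS : ∀ p ∈ S, Ideal.absNorm p.asIdeal = n) : S.card ≤ Module.finrank ℚ K := by
  classical
  have hinj : Set.InjOn (fun p : HeightOneSpectrum (𝓞 K) => p.asIdeal) (S : Set _) := by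
    intro p _ q _ h
    exact HeightOneSpectrum.ext h
  have hdvd : ∏ I ∈ S.image (fun p => p.asIdeal), I ∣ Ideal.span {(n : 𝓞 K)} := by
    apply Finset.prod_primes_dvd
    · intro I hI
      obtain ⟨p, hp, rfl⟩ := Finset.mem_image.mp hI
      exact p.prime
    · intro I hI
      obtain ⟨p, hp, rfl⟩ := Finset.mem_image.mp hI
      rw [Ideal.dvd_span_singleton, ← hS p hp]
      exact Ideal.absNorm_mem p.asIdeal
  rw [Finset.prod_image hinj] at hdvd
  have h1 := map_dvd (Ideal.absNorm (S := 𝓞 K)) hdvd
  rw [map_prod, Finset.prod_congr rfl hS, Finset.prod_const, Ideal.absNorm_span_natCast,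
    RingOfIntegers.rank] at h1
  exact (Nat.pow_dvd_pow_iff_le_right (by omega)).mp h1

theorem prime_sum (D : ℕ) : ∃ C : ℝ, 1 ≤ C ∧ ∀ (K : Type) [Field K] [NumberField K],
    Module.finrank ℚ K ≤ D → ∀ S : Finset (HeightOneSpectrum (𝓞 K)),
      ((S.card : ℝ) + 1) * Real.log ((S.card : ℝ) + 2) ≤
        C * (1 + ∑ p ∈ S, Real.log (Ideal.absNorm p.asIdeal)) := by
  classical
  set D' : ℕ := D + 1 with hD'
  have hD'R : (1 : ℝ) ≤ D' := by
    rw [hD']
    push_cast
    have : (0 : ℝ) ≤ D := Nat.cast_nonneg _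
    linarith
  have hlog2 : (0.6931 : ℝ) < Real.log 2 := by
    have := Real.log_two_gt_d9
    linarith
  have hlD : 0 ≤ Real.log (2 * D') := Real.log_nonneg (by linarith)
  refine ⟨20 + 4 * Real.log (2 * D'), by linarith, ?_⟩
  intro K _ _ hK S
  have hN2 : ∀ p : HeightOneSpectrum (𝓞 K), 2 ≤ Ideal.absNorm p.asIdeal := fun p =>
    NumberField.HeightOneSpectrum.one_lt_absNorm p
  have hNR : ∀ p : HeightOneSpectrum (𝓞 K), (2 : ℝ) ≤ Ideal.absNorm p.asIdeal := fun p => by
    exact_mod_cast hN2 p
  have hlogp : ∀ p : HeightOneSpectrum (𝓞 K), Real.log 2 ≤ Real.log (Ideal.absNorm p.asIdeal) :=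
    fun p => Real.log_le_log (by norm_num) (hNR p)
  set s : ℕ := S.card with hs
  set tot : ℝ := ∑ p ∈ S, Real.log (Ideal.absNorm p.asIdeal) with htot
  have htot1 : (s : ℝ) * Real.log 2 ≤ tot := by
    rw [htot, hs, ← nsmul_eq_mul]
    exact Finset.card_nsmul_le_sum _ _ _ fun p _ => hlogp p
  have hs0 : (0 : ℝ) ≤ s := Nat.cast_nonneg _
  have htot0 : 0 ≤ tot := le_trans (by positivity) htot1
  rcases Nat.eq_zero_or_pos s with hz | hz
  · rw [hz]
    have hl : Real.log 2 < 1 := by
      have := Real.log_two_lt_d9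
      linarith
    norm_num
    nlinarith
  have hs1 : (1 : ℝ) ≤ s := by exact_mod_cast hz
  -- the key bound
  have key : (s : ℝ) * Real.log s ≤ 2 * tot + 2 * Real.log (2 * D') * tot := by
    by_cases hsm : s < 2 * D'
    · have h1 : Real.log s ≤ Real.log (2 * D') := by
        apply Real.log_le_log (by linarith)
        exact_mod_cast hsm.le
      have h2 : (s : ℝ) * Real.log s ≤ s * Real.log (2 * D') := mul_le_mul_of_nonneg_left h1 hs0
      have h3 : (s : ℝ) ≤ 2 * tot := by nlinarith
      have h4 : (s : ℝ) * Real.log (2 * D') ≤ 2 * tot * Real.log (2 * D') :=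
        mul_le_mul_of_nonneg_right h3 hlD
      linarith
    · push Not at hsm
      set x : ℕ := s / (2 * D') with hx
      set S' : Finset (HeightOneSpectrum (𝓞 K)) :=
        S.filter (fun p => Ideal.absNorm p.asIdeal ≤ x) with hS'
      have hc1 : S'.card ≤ D' * (Finset.Icc 1 x).card := by
        apply Finset.card_le_mul_card_image_of_maps_to
          (f := fun p : HeightOneSpectrum (𝓞 K) => Ideal.absNorm p.asIdeal)
        · intro p hp
          rw [Finset.mem_Icc]
          exact ⟨by have := hN2 p; omega, (Finset.mem_filter.mp hp).2⟩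
        · intro n _
          by_cases hn : 2 ≤ n
          · refine (fiber_le n hn _ ?_).trans (by omega)
            intro p hp
            exact (Finset.mem_filter.mp hp).2
          · have : (S'.filter (fun p => Ideal.absNorm p.asIdeal = n)) = ∅ := by
              apply Finset.filter_eq_empty_iff.mpr
              intro p _ h
              have := hN2 p
              omega
            rw [this]
            simp
      rw [Nat.card_Icc, Nat.add_sub_cancel] at hc1
      have hc2 : 2 * (D' * x) ≤ s := by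
        have := Nat.mul_div_le s (2 * D')
        rw [← hx] at this
        linarith
      have hsub : S' ⊆ S := Finset.filter_subset _ _
      have hc3 : (S \ S').card = s - S'.card := by
        rw [Finset.card_sdiff_of_subset hsub]
      have hc4 : s ≤ 2 * (S \ S').card := by omega
      have hlow : ∀ p ∈ S \ S', Real.log ((s : ℝ) / (2 * D')) ≤
          Real.log (Ideal.absNorm p.asIdeal) := by
        intro p hp
        have h1 := Finset.mem_sdiff.mp hp
        have h2 : x < Ideal.absNorm p.asIdeal := by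
          by_contra hcon
          exact h1.2 (Finset.mem_filter.mpr ⟨h1.1, not_lt.mp hcon⟩)
        apply Real.log_le_log
        · positivity
        · have h3 : s < 2 * D' * (x + 1) := by
            rw [hx]
            exact Nat.lt_mul_div_succ s (by omega)
          have h4 : (s : ℝ) < 2 * D' * (x + 1) := by exact_mod_cast h3
          have h5 : ((x : ℝ) + 1) ≤ Ideal.absNorm p.asIdeal := by exact_mod_cast h2
          rw [div_le_iff₀ (by positivity)]
          have h6 : (0 : ℝ) < 2 * D' := by positivity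
          nlinarith
      have hlog0 : 0 ≤ Real.log ((s : ℝ) / (2 * D')) := Real.log_nonneg (by
        rw [le_div_iff₀ (by positivity), one_mul]
        exact_mod_cast hsm)
      have h7 : ((S \ S').card : ℝ) * Real.log ((s : ℝ) / (2 * D')) ≤ tot := by
        rw [← nsmul_eq_mul]
        refine (Finset.card_nsmul_le_sum _ _ _ hlow).trans ?_
        rw [htot]
        refine Finset.sum_le_sum_of_subset_of_nonneg Finset.sdiff_subset fun p _ _ => ?_
        have := hlogp p
        linarith
      have h8 : (s : ℝ) ≤ 2 * (S \ S').card := by exact_mod_cast hc4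
      have h9 : (s : ℝ) * Real.log ((s : ℝ) / (2 * D')) ≤ 2 * tot := by
        have := mul_le_mul_of_nonneg_right h8 hlog0
        linarith
      have h10 : Real.log ((s : ℝ) / (2 * D')) = Real.log s - Real.log (2 * D') :=
        Real.log_div (by linarith) (by positivity)
      rw [h10] at h9
      have h3 : (s : ℝ) ≤ 2 * tot := by nlinarith
      have h4 : (s : ℝ) * Real.log (2 * D') ≤ 2 * tot * Real.log (2 * D') :=
        mul_le_mul_of_nonneg_right h3 hlD
      linarith
  -- conclusion
  have h1 : Real.log ((s : ℝ) + 2) ≤ 1.2 + Real.log s := by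
    have h2 : (s : ℝ) + 2 ≤ 3 * s := by linarith
    have h3 : Real.log ((s : ℝ) + 2) ≤ Real.log (3 * s) := Real.log_le_log (by linarith) h2
    rw [Real.log_mul (by norm_num) (by linarith)] at h3
    have h4 : Real.log 3 ≤ 1.2 := by
      have h5 : Real.log 3 ≤ (Real.log 9) / 2 := by
        rw [show (9 : ℝ) = 3 ^ 2 by norm_num, Real.log_pow]
        norm_num
      have h6 : Real.log 9 ≤ 2.4 := by
        have h7 : Real.log 9 = Real.log (9 / 8) + 3 * Real.log 2 := by
          rw [show (3 : ℝ) * Real.log 2 = Real.log (2 ^ 3) by rw [Real.log_pow]; norm_num,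
            ← Real.log_mul (by norm_num) (by norm_num)]
          norm_num
        have h8 : Real.log (9 / 8) ≤ 9 / 8 - 1 := Real.log_le_sub_one_of_pos (by norm_num)
        have := Real.log_two_lt_d9
        rw [h7]
        linarith
      linarith
    linarith
  have hls0 : 0 ≤ Real.log s := Real.log_nonneg hs1
  have h2 : ((s : ℝ) + 1) * Real.log ((s : ℝ) + 2) ≤ 2 * s * (1.2 + Real.log s) := by
    have h3 : (s : ℝ) + 1 ≤ 2 * s := by linarith
    have h4 : 0 ≤ Real.log ((s : ℝ) + 2) := Real.log_nonneg (by linarith)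
    calc ((s : ℝ) + 1) * Real.log ((s : ℝ) + 2) ≤ (2 * s) * Real.log ((s : ℝ) + 2) :=
          mul_le_mul_of_nonneg_right h3 h4
      _ ≤ 2 * s * (1.2 + Real.log s) := mul_le_mul_of_nonneg_left h1 (by linarith)
  have h3 : (s : ℝ) ≤ 2 * tot := by nlinarith
  have h4 : 0 ≤ Real.log (2 * D') * tot := mul_nonneg hlD htot0
  nlinarith

/-- At a bad prime the exponent of the minimal resultant is positive. -/
theorem eps_pos (hd : 1 ≤ d) {F : Coef K d} (hF : res F ≠ 0) (p : HeightOneSpectrum (𝓞 K))
    (hbad : ¬ PotGood (FinitePlace.mk p).val F) : 1 ≤ eps p F := by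
  by_contra hcon
  have h0 : eps p F = 0 := by omega
  have hne : {n : ℕ | ∃ (A : Matrix (Fin 2) (Fin 2) K) (c : K), A.det ≠ 0 ∧ c ≠ 0 ∧
    (∀ q, p.valuation K ((c • conj F A) q) ≤ 1) ∧ (∃ q, p.valuation K ((c • conj F A) q) = 1) ∧
    p.valuation K (res (c • conj F A)) = WithZero.exp (-(n : ℤ))}.Nonempty := by
    have hnonarch : IsNonarchimedean (FinitePlace.mk p).val := nonarch_of_finite _
    have hσ : SumBound (FinitePlace.mk p).val (bigM d) 1 := sumBound_nonarch _ hnonarch _
    have hA : (1 : Matrix (Fin 2) (Fin 2) K).det ≠ 0 := by simp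
    have hres : res (conj F 1) ≠ 0 := by
      rw [res_conj F hA]
      exact mul_ne_zero (pow_ne_zero _ hA) hF
    set F' := conj F 1 with hF'
    set v := (FinitePlace.mk p).val with hv
    have hF'0 : F' ≠ 0 := ne_zero_of_res hd hres
    obtain ⟨q, hq⟩ := exists_cn v F'
    have hcpos : 0 < cn v F' := cn_pos v hF'0
    have hq0 : F' q ≠ 0 := by
      intro h0
      rw [h0, v.map_zero] at hq
      exact hcpos.ne hq
    have hc0 : (F' q)⁻¹ ≠ 0 := inv_ne_zero hq0
    set c : K := (F' q)⁻¹ with hc
    have hcn1 : cn v (c • F') = 1 := by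
      rw [cn_smul, hc, map_inv₀, hq, inv_mul_cancel₀ hcpos.ne']
    have hle : ∀ r, v ((c • F') r) ≤ 1 := fun r => hcn1 ▸ le_cn v (c • F') r
    have heq : v ((c • F') q) = 1 := by
      rw [Pi.smul_apply, smul_eq_mul, hc, inv_mul_cancel₀ hq0, v.map_one]
    have hres1 : res (c • F') ≠ 0 := by
      rw [res_smul]
      exact mul_ne_zero (pow_ne_zero _ hc0) hres
    have hres2 : v (res (c • F')) ≤ 1 := by
      have := res_le hσ (c • F')
      rwa [hcn1, one_pow, one_mul] at this
    have hval0 : p.valuation K (res (c • F')) ≠ 0 := (Valuation.ne_zero_iff _).mpr hres1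
    have hval1 : p.valuation K (res (c • F')) ≤ 1 := (MR1_le_one p _).mp hres2
    set m : ℤ := WithZero.log (p.valuation K (res (c • F'))) with hm
    have hexp : p.valuation K (res (c • F')) = WithZero.exp m := (WithZero.exp_log hval0).symm
    have hm0 : m ≤ 0 := by
      rw [hexp, ← WithZero.exp_zero] at hval1
      exact WithZero.exp_le_exp.mp hval1
    obtain ⟨n, hn⟩ := Int.eq_ofNat_of_zero_le (a := -m) (by omega)
    have hmn : m = -(n : ℤ) := by omega
    exact ⟨n, 1, c, hA, hc0, fun r => (MR1_le_one p _).mp (hle r),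
      ⟨q, (MR1_eq_one p _).mp heq⟩, by rw [← hF', hexp, hmn]⟩
  have hmem := Nat.sInf_mem hne
  have hz : sInf {n : ℕ | ∃ (A : Matrix (Fin 2) (Fin 2) K) (c : K), A.det ≠ 0 ∧ c ≠ 0 ∧
    (∀ q, p.valuation K ((c • conj F A) q) ≤ 1) ∧ (∃ q, p.valuation K ((c • conj F A) q) = 1) ∧
    p.valuation K (res (c • conj F A)) = WithZero.exp (-(n : ℤ))} = 0 := h0
  rw [hz] at hmem
  obtain ⟨A, c, hA, hc, h1, -, h3⟩ := hmem
  apply hbad
  refine ⟨K, inferInstance, RingHom.id K, (FinitePlace.mk p).val, nonarch_of_finite _,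
    fun x => rfl, A, c, hA, hc, ?_, ?_⟩
  · intro q
    exact (MR1_le_one p _).mpr (h1 q)
  · refine (MR1_eq_one p _).mpr ?_
    change p.valuation K (res (c • conj F A)) = 1
    rw [h3]
    simp

/-- `Σ_{p bad} log N(p) ≤ log N(R_φ)`. -/
theorem bad_sum_le (hd : 1 ≤ d) {F : Coef K d} (hF : res F ≠ 0)
    (S : Finset (HeightOneSpectrum (𝓞 K)))
    (hS : ∀ p ∈ S, ¬ PotGood (FinitePlace.mk p).val F) :
    ∑ p ∈ S, Real.log (Ideal.absNorm p.asIdeal) ≤ Real.log (Ideal.absNorm (minRes F)) := by
  classical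
  have hA : (1 : Matrix (Fin 2) (Fin 2) K).det ≠ 0 := by simp
  have hres : res (conj F 1) ≠ 0 := by
    rw [res_conj F hA]
    exact mul_ne_zero (pow_ne_zero _ hA) hF
  set F' := conj F 1 with hF'
  have hfs : (Function.support (fun v : FinitePlace K => rr v.val F')).Finite := FS_rr hd hres
  set g : HeightOneSpectrum (𝓞 K) → ℝ := fun p => rr (FinitePlace.mk p).val F' with hg
  have hcomp : ∀ v : FinitePlace K, g (FinitePlace.equivHeightOneSpectrum v) = rr v.val F' := by
    intro v
    rw [hg]
    simp only [FinitePlace.equivHeightOneSpectrum_apply, FinitePlace.mk_maximalIdeal]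
  have hgs : (Function.support g).Finite := by
    refine (hfs.image FinitePlace.equivHeightOneSpectrum).subset ?_
    intro p hp
    refine ⟨FinitePlace.equivHeightOneSpectrum.symm p, ?_, by simp⟩
    rw [Function.mem_support] at hp ⊢
    rw [← hcomp, Equiv.apply_symm_apply]
    exact hp
  have hle : ∀ p : HeightOneSpectrum (𝓞 K),
      (eps p F : ℝ) * Real.log (Ideal.absNorm p.asIdeal) ≤ g p := fun p => eps_le hd hF hA p
  have hN : ∀ p : HeightOneSpectrum (𝓞 K), (1 : ℝ) < Ideal.absNorm p.asIdeal := fun p => by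
    exact_mod_cast NumberField.HeightOneSpectrum.one_lt_absNorm p
  have heps0 : ∀ p, p ∉ hgs.toFinset ∪ S → eps p F = 0 := by
    intro p hp
    have hp' : p ∉ hgs.toFinset := fun h => hp (Finset.mem_union_left _ h)
    have h0 : g p = 0 := by
      by_contra hne
      exact hp' (hgs.mem_toFinset.mpr hne)
    have h1 := hle p
    rw [h0] at h1
    have h2 : 0 < Real.log (Ideal.absNorm p.asIdeal) := Real.log_pos (hN p)
    by_contra hne
    have h3 : (0 : ℝ) < eps p F := by exact_mod_cast Nat.pos_of_ne_zero hne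
    have := mul_pos h3 h2
    linarith
  have hmin : minRes F = ∏ p ∈ hgs.toFinset ∪ S, p.asIdeal ^ eps p F := by
    unfold minRes
    apply finprod_eq_prod_of_mulSupport_subset
    intro p hp
    rw [Function.mem_mulSupport] at hp
    by_contra hnot
    exact hp (by rw [heps0 p (by simpa using hnot), pow_zero])
  have hlog : Real.log (Ideal.absNorm (minRes F)) =
      ∑ p ∈ hgs.toFinset ∪ S, (eps p F : ℝ) * Real.log (Ideal.absNorm p.asIdeal) := by
    rw [hmin, map_prod, Nat.cast_prod, Real.log_prod]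
    · refine Finset.sum_congr rfl fun p _ => ?_
      rw [map_pow, Nat.cast_pow, Real.log_pow]
    · intro p _
      rw [map_pow, Nat.cast_pow]
      have := hN p
      positivity
  rw [hlog]
  calc ∑ p ∈ S, Real.log (Ideal.absNorm p.asIdeal)
      ≤ ∑ p ∈ S, (eps p F : ℝ) * Real.log (Ideal.absNorm p.asIdeal) := by
        refine Finset.sum_le_sum fun p hp => ?_
        have h1 : (1 : ℝ) ≤ eps p F := by exact_mod_cast eps_pos hd hF p (hS p hp)
        have h2 : 0 < Real.log (Ideal.absNorm p.asIdeal) := Real.log_pos (hN p)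
        nlinarith
    _ ≤ ∑ p ∈ hgs.toFinset ∪ S, (eps p F : ℝ) * Real.log (Ideal.absNorm p.asIdeal) := by
        refine Finset.sum_le_sum_of_subset_of_nonneg Finset.subset_union_right fun p _ _ => ?_
        exact mul_nonneg (Nat.cast_nonneg _) (Real.log_pos (hN p)).le

/-- The number `s` of bad places satisfies `(s+1) log(s+2) ≤ C (1 + log N(R_φ))`. -/
theorem bad_count (D : ℕ) : ∃ C : ℝ, 1 ≤ C ∧ ∀ (K : Type) [Field K] [NumberField K],
    Module.finrank ℚ K ≤ D → ∀ (d : ℕ), 1 ≤ d → ∀ F : Coef K d, res F ≠ 0 →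
      (((badPl F).ncard : ℝ) + 1) * Real.log (((badPl F).ncard : ℝ) + 2) ≤
        C * (1 + Real.log (Ideal.absNorm (minRes F))) := by
  classical
  obtain ⟨C, hC1, hC⟩ := prime_sum D
  refine ⟨C, hC1, ?_⟩
  intro K _ _ hK d hd F hF
  have hfin := badPl_finite hd hF
  set S : Finset (HeightOneSpectrum (𝓞 K)) :=
    hfin.toFinset.image FinitePlace.equivHeightOneSpectrum with hS
  have hcard : S.card = (badPl F).ncard := by
    rw [hS, Finset.card_image_of_injective _ FinitePlace.equivHeightOneSpectrum.injective,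
      Set.ncard_eq_toFinset_card _ hfin]
  have hbad : ∀ p ∈ S, ¬ PotGood (FinitePlace.mk p).val F := by
    intro p hp
    obtain ⟨v, hv, rfl⟩ := Finset.mem_image.mp hp
    have h1 : v ∈ badPl F := hfin.mem_toFinset.mp hv
    rw [FinitePlace.equivHeightOneSpectrum_apply, FinitePlace.mk_maximalIdeal]
    exact h1
  have h1 := hC K hK S
  rw [hcard] at h1
  refine h1.trans (mul_le_mul_of_nonneg_left ?_ (by linarith))
  have := bad_sum_le hd hF S hbad
  linarith

end Pool.Agent.LNG2
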