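import Pool.Agent.LNG2.Cou
import Pool.Agent.LNG2.Prm

/-!
# Points of small canonical height and wandering points, for all rational maps
-/

namespace Pool.Agent.LNG2

open Polynomial NumberField IsDedekindDomain Pool.Agent.LNG

open scoped LinearAlgebra.Projectivization

theorem rep_wd {K : Type} [Field K] {P Q : ℙ K (Fin 2 → K)} (h : P ≠ Q) :
    wd P.rep Q.rep ≠ 0 := by
  intro h0
  obtain ⟨c, hc, hPQ⟩ := Nor_prop P.rep_nonzero Q.rep_nonzero h0
  apply h
  rw [← P.mk_rep, ← Q.mk_rep, Projectivization.mk_eq_mk_iff']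
  exact ⟨c, hPQ.symm⟩

theorem one_le_size {K : Type} [Field K] [NumberField K] {d : ℕ} (M : ModInt d) (F : Coef K d)
    (A : Matrix (Fin 2) (Fin 2) K) : 1 ≤ size M F A := by
  have := absHeight_nonneg' (conj F A)
  unfold size
  exact le_trans (by linarith) (le_max_right _ _)

theorem canHeight_preper {K : Type} [Field K] [NumberField K] {d : ℕ} (hd : 2 ≤ d) {F : Coef K d}
    (hF : res F ≠ 0) {P : Fin 2 → K} (hP : P ≠ 0) (hp : Preper F P) : canHeight F P = 0 := by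
  obtain ⟨i, j, hji, c, hc, h⟩ := hp
  have h1 := canHeight_iter hd hF hP i
  rw [h, canHeight_smul_vec hd hF (iter_ne_zero (by omega) hF hP j) hc,
    canHeight_iter hd hF hP j] at h1
  have hd1 : (1 : ℝ) < d := by exact_mod_cast (show 1 < d by omega)
  have h2 : (d : ℝ) ^ j < (d : ℝ) ^ i := pow_lt_pow_right₀ hd1 hji
  have h3 : ((d : ℝ) ^ i - (d : ℝ) ^ j) * canHeight F P = 0 := by
    rw [sub_mul]
    linarith
  rcases mul_eq_zero.mp h3 with h4 | h4
  · linarith
  · exact h4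

/-- The bound for `θ = 1/(s+1)`. -/
theorem bound_theta (C : ℝ) (hC : 1 ≤ C) (s : ℕ) :
    C ^ (1 / ((s : ℝ) + 1) * s + 1) * (1 / (1 / ((s : ℝ) + 1)) *
      Real.log (2 / (1 / ((s : ℝ) + 1)))) ≤
      2 * C ^ 2 * (((s : ℝ) + 1) * Real.log ((s : ℝ) + 2)) := by
  have hs0 : (0 : ℝ) ≤ s := Nat.cast_nonneg _
  have h1 : 1 / ((s : ℝ) + 1) * s + 1 ≤ 2 := by
    have : 1 / ((s : ℝ) + 1) * s ≤ 1 := by
      rw [one_div_mul_eq_div, div_le_one (by linarith)]
      linarith
    linarith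
  have h2 : C ^ (1 / ((s : ℝ) + 1) * s + 1) ≤ C ^ 2 := by
    have := Real.rpow_le_rpow_of_exponent_le hC h1
    rwa [Real.rpow_two] at this
  have h3 : 1 / (1 / ((s : ℝ) + 1)) = (s : ℝ) + 1 := by
    rw [one_div_one_div]
  have h4 : 2 / (1 / ((s : ℝ) + 1)) = 2 * ((s : ℝ) + 1) := by
    rw [div_div_eq_mul_div, div_one]
  rw [h3, h4]
  have h5 : Real.log (2 * ((s : ℝ) + 1)) ≤ 2 * Real.log ((s : ℝ) + 2) := by
    have h6 : 2 * Real.log ((s : ℝ) + 2) = Real.log (((s : ℝ) + 2) ^ 2) := by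
      rw [Real.log_pow]
      norm_num
    rw [h6]
    apply Real.log_le_log (by linarith)
    nlinarith
  have h7 : 0 ≤ Real.log (2 * ((s : ℝ) + 1)) := Real.log_nonneg (by linarith)
  have h8 : ((s : ℝ) + 1) * Real.log (2 * ((s : ℝ) + 1)) ≤
      ((s : ℝ) + 1) * (2 * Real.log ((s : ℝ) + 2)) := mul_le_mul_of_nonneg_left h5 (by linarith)
  calc C ^ (1 / ((s : ℝ) + 1) * s + 1) * (((s : ℝ) + 1) * Real.log (2 * ((s : ℝ) + 1)))
      ≤ C ^ 2 * (((s : ℝ) + 1) * (2 * Real.log ((s : ℝ) + 2))) :=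
        mul_le_mul h2 h8 (mul_nonneg (by linarith) h7) (by positivity)
    _ = 2 * C ^ 2 * (((s : ℝ) + 1) * Real.log ((s : ℝ) + 2)) := by ring

/-- The main theorem. -/
theorem main_all (d : ℕ) (hd : 2 ≤ d) (D : ℕ) (M : ModInt d) :
    ∃ C : ℝ, 1 ≤ C ∧ ∀ (K : Type) [Field K] [NumberField K], Module.finrank ℚ K ≤ D →
      ∀ F : Coef K d, res F ≠ 0 →
      (∀ θ : ℝ, 0 < θ → θ ≤ 1 → ∀ S : Finset (ℙ K (Fin 2 → K)),
        (∀ P ∈ S, ∀ A : Matrix (Fin 2) (Fin 2) K, A.det ≠ 0 →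
          canHeight F P.rep < θ / C * size M F A) →
        (S.card : ℝ) ≤ C ^ (θ * (badPl F).ncard + 1) * (1 / θ * Real.log (2 / θ))) ∧
      (∀ P : Fin 2 → K, P ≠ 0 → ¬ Preper F P → ∃ A : Matrix (Fin 2) (Fin 2) K, A.det ≠ 0 ∧
        Real.exp (-(C * (((badPl F).ncard + 1) * Real.log ((badPl F).ncard + 2)))) * size M F A ≤
          canHeight F P) ∧
      (∀ P : Fin 2 → K, P ≠ 0 → ¬ Preper F P → ∃ A : Matrix (Fin 2) (Fin 2) K, A.det ≠ 0 ∧
        Real.exp (-(C * (1 + Real.log (Ideal.absNorm (minRes F))))) * size M F A ≤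
          canHeight F P) ∧
      (∀ S : Finset (ℙ K (Fin 2 → K)), (∀ P ∈ S, Preper F P.rep) →
        (S.card : ℝ) ≤ C * (((badPl F).ncard + 1) * Real.log ((badPl F).ncard + 2))) := by
  classical
  obtain ⟨C, hC, hmain⟩ := count_main d hd D M
  obtain ⟨B, hB, hbad⟩ := bad_count D
  have hC0 : 0 < C := by linarith
  have hd1 : 1 ≤ d := by omega
  have hdR : (1 : ℝ) ≤ d := by exact_mod_cast hd1
  have hlogd : 0 ≤ Real.log d := Real.log_nonneg hdR
  set C' : ℝ := 2 * C + 1 + 2 * C ^ 2 * Real.log d with hC'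
  have hC'0 : 0 ≤ 2 * C ^ 2 * Real.log d := by positivity
  have hC'1 : 1 ≤ C' := by linarith
  have hC'B : 0 ≤ C' * B := by positivity
  have hC2 : 0 ≤ 2 * C ^ 2 := by positivity
  set Cf : ℝ := C + C' + C' * B + 2 * C ^ 2 with hCf
  have hCf1 : 1 ≤ Cf := by linarith
  refine ⟨Cf, hCf1, ?_⟩
  intro K _ _ hK F hF
  have hfin := badPl_finite hd1 hF
  have hs : (badPl F).encard ≤ ((badPl F).ncard : ℕ∞) := by
    rw [hfin.cast_ncard_eq]
  have hbc := hbad K hK d hd1 F hF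
  set s : ℕ := (badPl F).ncard with hsdef
  have hs0 : (0 : ℝ) ≤ s := Nat.cast_nonneg _
  have hlog2 : (0.6931 : ℝ) < Real.log 2 := by
    have := Real.log_two_gt_d9
    linarith
  have hlogs : Real.log 2 ≤ Real.log ((s : ℝ) + 2) := Real.log_le_log (by norm_num) (by linarith)
  set Λ : ℝ := ((s : ℝ) + 1) * Real.log ((s : ℝ) + 2) with hΛ
  have hΛ2 : 1 / 2 ≤ Λ := by nlinarith
  have hθ0 : (0 : ℝ) < 1 / ((s : ℝ) + 1) := by positivity
  have hθ1 : 1 / ((s : ℝ) + 1) ≤ 1 := by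
    rw [div_le_one (by linarith)]
    linarith
  -- part (1)
  have p1 : ∀ θ : ℝ, 0 < θ → θ ≤ 1 → ∀ S : Finset (ℙ K (Fin 2 → K)),
      (∀ P ∈ S, ∀ A : Matrix (Fin 2) (Fin 2) K, A.det ≠ 0 →
        canHeight F P.rep < θ / C * size M F A) →
      (S.card : ℝ) ≤ C ^ (θ * s + 1) * (1 / θ * Real.log (2 / θ)) := by
    intro θ h0 h1 S hS
    let e := S.equivFin.symm
    have hinj : ∀ i j, i ≠ j → (e i).1 ≠ (e j).1 := by
      intro i j hij h
      exact hij (e.injective (Subtype.ext h))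
    exact hmain K hK F hF s hs θ h0 h1 S.card (fun i => (e i).1.rep)
      (fun i => (e i).1.rep_nonzero) (fun i j hij => rep_wd (hinj i j hij))
      (fun i A hA => hS _ (e i).2 A hA)
  -- part (2)
  have p2 : ∀ P : Fin 2 → K, P ≠ 0 → ¬ Preper F P → ∃ A : Matrix (Fin 2) (Fin 2) K,
      A.det ≠ 0 ∧ Real.exp (-(C' * Λ)) * size M F A ≤ canHeight F P := by
    intro P hP hw
    have hN0 : 0 ≤ 2 * C ^ 2 * Λ := by positivity
    set N : ℕ := ⌊2 * C ^ 2 * Λ⌋₊ with hN
    have hN1 : (N : ℝ) ≤ 2 * C ^ 2 * Λ := Nat.floor_le hN0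
    have hN2 : 2 * C ^ 2 * Λ < (N : ℝ) + 1 := Nat.lt_floor_add_one _
    have hex : ∃ i : Fin (N + 1), ∃ A : Matrix (Fin 2) (Fin 2) K, A.det ≠ 0 ∧
        1 / ((s : ℝ) + 1) / C * size M F A ≤ canHeight F ((ev F)^[i] P) := by
      by_contra hcon
      push Not at hcon
      have h1 := hmain K hK F hF s hs _ hθ0 hθ1 (N + 1) (fun i => (ev F)^[i] P)
        (fun i => iter_ne_zero hd1 hF hP _)
        (fun i j hij => wd_ne_zero_of_wandering hd hF hP hw (fun h => hij (Fin.ext h))) hcon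
      have h2 := h1.trans (bound_theta C hC s)
      push_cast at h2
      linarith
    obtain ⟨i, A, hA, h⟩ := hex
    refine ⟨A, hA, ?_⟩
    rw [canHeight_iter hd hF hP] at h
    have hi : ((i : ℕ) : ℝ) ≤ 2 * C ^ 2 * Λ := by
      refine le_trans ?_ hN1
      exact_mod_cast Nat.lt_succ_iff.mp i.2
    have hdi : (d : ℝ) ^ (i : ℕ) = Real.exp ((i : ℕ) * Real.log d) := by
      rw [Real.exp_nat_mul, Real.exp_log (by linarith)]
    have h3 : Real.log C ≤ 2 * C * Λ := by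
      have := Real.log_le_sub_one_of_pos hC0
      nlinarith
    have h4 : Real.log ((s : ℝ) + 1) ≤ Λ := by
      have h5 : Real.log ((s : ℝ) + 1) ≤ Real.log ((s : ℝ) + 2) :=
        Real.log_le_log (by linarith) (by linarith)
      have h6 : 0 ≤ Real.log ((s : ℝ) + 2) := by linarith
      rw [hΛ]
      nlinarith
    have h5 : (i : ℕ) * Real.log d ≤ 2 * C ^ 2 * Λ * Real.log d :=
      mul_le_mul_of_nonneg_right hi hlogd
    have hsz := one_le_size M F A
    have hexp : Real.exp (-(C' * Λ)) * (d : ℝ) ^ (i : ℕ) ≤ 1 / ((s : ℝ) + 1) / C := by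
      have e1 : 1 / ((s : ℝ) + 1) / C = Real.exp (-Real.log ((s : ℝ) + 1) - Real.log C) := by
        rw [Real.exp_sub, Real.exp_neg, Real.exp_log (by linarith), Real.exp_log hC0, one_div]
      rw [e1, hdi, ← Real.exp_add]
      apply Real.exp_le_exp.mpr
      rw [hC']
      nlinarith
    have hdpos : (0 : ℝ) < (d : ℝ) ^ (i : ℕ) := by positivity
    have h6 : (Real.exp (-(C' * Λ)) * (d : ℝ) ^ (i : ℕ)) * size M F A ≤
        (d : ℝ) ^ (i : ℕ) * canHeight F P :=
      (mul_le_mul_of_nonneg_right hexp (by linarith)).trans h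
    have h7 : (d : ℝ) ^ (i : ℕ) * (Real.exp (-(C' * Λ)) * size M F A) ≤
        (d : ℝ) ^ (i : ℕ) * canHeight F P := by
      linarith
    exact le_of_mul_le_mul_left h7 hdpos
  refine ⟨?_, ?_, ?_, ?_⟩
  · intro θ h0 h1 S hS
    have h2 := p1 θ h0 h1 S (fun P hP A hA => (hS P hP A hA).trans_le (by
      have hsz := one_le_size M F A
      refine mul_le_mul_of_nonneg_right ?_ (by linarith)
      exact div_le_div_of_nonneg_left h0.le hC0 (by linarith)))
    refine h2.trans (mul_le_mul_of_nonneg_right ?_ ?_)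
    · exact Real.rpow_le_rpow (by linarith) (by linarith) (by positivity)
    · have : 0 ≤ Real.log (2 / θ) := Real.log_nonneg (by
        rw [le_div_iff₀ h0]
        linarith)
      positivity
  · intro P hP hw
    obtain ⟨A, hA, h⟩ := p2 P hP hw
    refine ⟨A, hA, le_trans ?_ h⟩
    have hsz := one_le_size M F A
    refine mul_le_mul_of_nonneg_right ?_ (by linarith)
    apply Real.exp_le_exp.mpr
    have : C' * Λ ≤ Cf * Λ := mul_le_mul_of_nonneg_right (by linarith) (by linarith)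
    linarith
  · intro P hP hw
    obtain ⟨A, hA, h⟩ := p2 P hP hw
    refine ⟨A, hA, le_trans ?_ h⟩
    have hsz := one_le_size M F A
    refine mul_le_mul_of_nonneg_right ?_ (by linarith)
    apply Real.exp_le_exp.mpr
    have h0 : 0 ≤ 1 + Real.log (Ideal.absNorm (minRes F)) := by
      have := Real.log_natCast_nonneg (Ideal.absNorm (minRes F))
      linarith
    have h1 : C' * Λ ≤ C' * (B * (1 + Real.log (Ideal.absNorm (minRes F)))) :=
      mul_le_mul_of_nonneg_left hbc (by linarith)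
    have h2 : C' * B * (1 + Real.log (Ideal.absNorm (minRes F))) ≤
        Cf * (1 + Real.log (Ideal.absNorm (minRes F))) :=
      mul_le_mul_of_nonneg_right (by linarith) h0
    linarith
  · intro S hS
    have h1 := p1 _ hθ0 hθ1 S (fun P hP A hA => by
      rw [canHeight_preper hd hF P.rep_nonzero (hS P hP)]
      have hsz := one_le_size M F A
      positivity)
    refine (h1.trans (bound_theta C hC s)).trans ?_
    exact mul_le_mul_of_nonneg_right (by linarith) (by linarith)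

end Pool.Agent.LNG2
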