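import Pool.Agent.LNG.Plc
import Pool.Agent.LNG.Lcg

/-!
# The class lemma at finite places without additive constant

Powers of a nonarchimedean absolute value are absolute values; all local quantities are multiplied
by the exponent, so letting the exponent tend to infinity removes the additive constant of the
class lemma (for a finite family of points).
-/

namespace Pool.Agent.LNG2

open Polynomial NumberField IsDedekindDomain Pool.Agent.LNG

/-- The power of a nonarchimedean absolute value. -/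
noncomputable def powAbs {K : Type*} [Field K] (v : AbsoluteValue K ℝ) (hv : IsNonarchimedean v)
    (j : ℕ) : AbsoluteValue K ℝ where
  toFun x := v x ^ (j + 1)
  map_mul' x y := by rw [map_mul, mul_pow]
  nonneg' x := pow_nonneg (v.nonneg x) _
  eq_zero' x := by simp
  add_le' x y := by
    have h := hv x y
    rcases le_total (v x) (v y) with h1 | h1
    · rw [max_eq_right h1] at h
      have h2 : v (x + y) ^ (j + 1) ≤ v y ^ (j + 1) := pow_le_pow_left₀ (v.nonneg _) h _
      have h3 : 0 ≤ v x ^ (j + 1) := pow_nonneg (v.nonneg _) _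
      linarith
    · rw [max_eq_left h1] at h
      have h2 : v (x + y) ^ (j + 1) ≤ v x ^ (j + 1) := pow_le_pow_left₀ (v.nonneg _) h _
      have h3 : 0 ≤ v y ^ (j + 1) := pow_nonneg (v.nonneg _) _
      linarith

section

variable {K : Type*} [Field K] {d : ℕ} (v : AbsoluteValue K ℝ) (hv : IsNonarchimedean v) (j : ℕ)

theorem powAbs_apply (x : K) : powAbs v hv j x = v x ^ (j + 1) := rfl

theorem powAbs_nonarch : IsNonarchimedean (powAbs v hv j) := by
  intro x y
  rw [powAbs_apply, powAbs_apply, powAbs_apply]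
  have h := hv x y
  rcases le_total (v x) (v y) with h1 | h1
  · rw [max_eq_right h1] at h
    exact le_max_of_le_right (pow_le_pow_left₀ (v.nonneg _) h _)
  · rw [max_eq_left h1] at h
    exact le_max_of_le_left (pow_le_pow_left₀ (v.nonneg _) h _)

theorem max_pow_aux {a b : ℝ} (ha : 0 ≤ a) (hb : 0 ≤ b) (n : ℕ) :
    max (a ^ n) (b ^ n) = max a b ^ n := by
  rcases le_total a b with h | h
  · rw [max_eq_right h, max_eq_right (pow_le_pow_left₀ ha h n)]
  · rw [max_eq_left h, max_eq_left (pow_le_pow_left₀ hb h n)]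

theorem vn_powAbs (X : Fin 2 → K) : vn (powAbs v hv j) X = vn v X ^ (j + 1) := by
  unfold vn
  rw [powAbs_apply, powAbs_apply, max_pow_aux (v.nonneg _) (v.nonneg _)]

theorem cn_powAbs (F : Coef K d) : cn (powAbs v hv j) F = cn v F ^ (j + 1) := by
  apply le_antisymm
  · obtain ⟨p, hp⟩ := exists_cn (powAbs v hv j) F
    rw [← hp, powAbs_apply]
    exact pow_le_pow_left₀ (v.nonneg _) (le_cn v F p) _
  · obtain ⟨p, hp⟩ := exists_cn v F
    rw [← hp, ← powAbs_apply v hv j]
    exact le_cn _ F p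

theorem rr_powAbs (F : Coef K d) : rr (powAbs v hv j) F = ((j : ℝ) + 1) * rr v F := by
  unfold rr
  rw [cn_powAbs, powAbs_apply, Real.log_pow, Real.log_pow]
  push_cast
  ring

theorem G_powAbs (hd : 2 ≤ d) {F : Coef K d} (hF : res F ≠ 0) {X : Fin 2 → K} (hX : X ≠ 0) :
    G (powAbs v hv j) F X = ((j : ℝ) + 1) * G v F X := by
  have h1 := GrV_tendsto (powAbs v hv j) hd hF hX
  have h2 := (GrV_tendsto v hd hF hX).const_mul ((j : ℝ) + 1)
  refine tendsto_nhds_unique h1 (h2.congr fun n => ?_)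
  rw [vn_powAbs, Real.log_pow]
  push_cast
  ring

theorem gg_powAbs (hd : 2 ≤ d) {F : Coef K d} (hF : res F ≠ 0) {X Y : Fin 2 → K}
    (h : wd X Y ≠ 0) : gg (powAbs v hv j) F X Y = ((j : ℝ) + 1) * gg v F X Y := by
  unfold gg
  rw [G_powAbs v hv j hd hF (left_ne_zero_of_wd h), G_powAbs v hv j hd hF (right_ne_zero_of_wd h),
    powAbs_apply, powAbs_apply, Real.log_pow, Real.log_pow]
  push_cast
  ring

end

/-- The colouring lemma for a finite family of points: with an additive constant at the infinite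
places and without one at the finite places. -/
theorem plc0 (d : ℕ) (hd : 2 ≤ d) : ∃ (m : ℕ) (c C : ℝ), 0 < m ∧ 0 < c ∧ 0 ≤ C ∧
    (∀ (K : Type) [Field K] [NumberField K] (v : InfinitePlace K) (F : Coef K d), res F ≠ 0 →
      ∀ (N : ℕ) (X : Fin N → Fin 2 → K), (∀ i j, i ≠ j → wd (X i) (X j) ≠ 0) →
        ∃ χ : Fin N → Fin m, ∀ τ ∈ D3 N, χ τ.1 = χ τ.2.1 → χ τ.2.1 = χ τ.2.2 →
          c * rr v.val (conj F (At X τ)) - C ≤ St v.val F X τ) ∧
    (∀ (K : Type) [Field K] [NumberField K] (v : FinitePlace K) (F : Coef K d), res F ≠ 0 →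
      ∀ (N : ℕ) (X : Fin N → Fin 2 → K), (∀ i j, i ≠ j → wd (X i) (X j) ≠ 0) →
        ∃ χ : Fin N → Fin m, ∀ τ ∈ D3 N, χ τ.1 = χ τ.2.1 → χ τ.2.1 = χ τ.2.2 →
          c * rr v.val (conj F (At X τ)) ≤ St v.val F X τ) := by
  obtain ⟨m, c, C, hm, hc, hC, H⟩ := class_lemma d hd
  -- from a colouring of vectors to a colouring of indices
  have key : ∀ (K : Type) [Field K] [NumberField K] (w : AbsoluteValue K ℝ) (F : Coef K d)
      (χ : (Fin 2 → K) → Fin m),
      (∀ X Y α β, wd X Y ≠ 0 → α ≠ 0 → β ≠ 0 → χ X = χ Y → χ Y = χ (α • X + β • Y) →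
            c * rr w (conj F (tri X Y α β)) - C ≤
              gg w F X Y + gg w F Y (α • X + β • Y) + gg w F (α • X + β • Y) X) →
      ∀ (N : ℕ) (X : Fin N → Fin 2 → K), (∀ i j, i ≠ j → wd (X i) (X j) ≠ 0) →
        ∀ τ ∈ D3 N, χ (X τ.1) = χ (X τ.2.1) → χ (X τ.2.1) = χ (X τ.2.2) →
          c * rr w (conj F (At X τ)) - C ≤ St w F X τ := by
    intro K _ _ w F χ hχ N X hX τ hτ e1 e2
    obtain ⟨h1, h2, h3⟩ := (Finset.mem_filter.mp hτ).2
    have g1 := hX _ _ h1
    have g2 := hX _ _ (Ne.symm h2)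
    have g3 := hX _ _ (Ne.symm h3)
    have := hχ (X τ.1) (X τ.2.1) _ _ g1 (div_ne_zero g2 g1) (div_ne_zero g3 g1)
      e1 (by rw [comb_eq g1]; exact e2)
    rw [comb_eq g1] at this
    exact this
  refine ⟨m, c, C, hm, hc, hC, ?_, ?_⟩
  · intro K _ _ v F hF N X hX
    obtain ⟨χ, hχ⟩ := Plc_transfer v.val absC v.embedding (fun x => by
      rw [absC_apply, InfinitePlace.norm_embedding_eq]
      rfl) (H ℂ absC mprop_complex) F hF
    exact ⟨fun i => χ (X i), fun τ hτ => key K v.val F χ hχ N X hX τ hτ⟩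
  · intro K _ _ v F hF N X hX
    have hv := nonarch_of_finite v
    have hχ : ∀ j : ℕ, ∃ χ : Fin N → Fin m, ∀ τ ∈ D3 N, χ τ.1 = χ τ.2.1 → χ τ.2.1 = χ τ.2.2 →
        c * rr (powAbs v.val hv j) (conj F (At X τ)) - C ≤ St (powAbs v.val hv j) F X τ := by
      intro j
      obtain ⟨x, hx0, hx1⟩ := Plc_small v
      obtain ⟨k, _, _, _, u, ι, hu, hι⟩ := exists_ext_nonarch (powAbs v.val hv j)
        (powAbs_nonarch v.val hv j)
        ⟨x, hx0, by rw [powAbs_apply]; exact pow_lt_one₀ (v.val.nonneg x) hx1 (Nat.succ_ne_zero j)⟩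
      obtain ⟨χ, hχ⟩ := Plc_transfer (powAbs v.val hv j) u ι hι (H k u (mprop_nonarch u hu)) F hF
      exact ⟨fun i => χ (X i), fun τ hτ => key K (powAbs v.val hv j) F χ hχ N X hX τ hτ⟩
    choose χ hχ using hχ
    obtain ⟨χ0, hinf⟩ := Finite.exists_infinite_fiber χ
    rw [Set.infinite_coe_iff] at hinf
    refine ⟨χ0, ?_⟩
    intro τ hτ e1 e2
    by_contra hnot
    push Not at hnot
    obtain ⟨h1, h2, h3⟩ := (Finset.mem_filter.mp hτ).2
    set R : ℝ := rr v.val (conj F (At X τ)) with hR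
    set S : ℝ := St v.val F X τ with hS
    have hpos : 0 < c * R - S := by linarith
    obtain ⟨j0, hj0⟩ := exists_nat_gt (C / (c * R - S))
    obtain ⟨j, hj, hjj⟩ := hinf.exists_gt j0
    have hj' : χ j = χ0 := hj
    have h4 := hχ j τ hτ (by rw [hj']; exact e1) (by rw [hj']; exact e2)
    have h5 : St (powAbs v.val hv j) F X τ = ((j : ℝ) + 1) * S := by
      rw [hS]
      unfold St
      rw [gg_powAbs v.val hv j hd hF (hX _ _ h1), gg_powAbs v.val hv j hd hF (hX _ _ h2),
        gg_powAbs v.val hv j hd hF (hX _ _ h3)]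
      ring
    rw [rr_powAbs, h5, ← hR] at h4
    have h6 : C < j0 * (c * R - S) := by
      rwa [div_lt_iff₀ hpos] at hj0
    have h7 : (j0 : ℝ) ≤ (j : ℝ) := by exact_mod_cast hjj.le
    have h8 : (j0 : ℝ) * (c * R - S) ≤ ((j : ℝ) + 1) * (c * R - S) :=
      mul_le_mul_of_nonneg_right (by linarith) hpos.le
    nlinarith

end Pool.Agent.LNG2
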