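import Pool.Agent.LNG2.Scl
import Pool.Agent.LNG2.Gl2

/-!
# The main inequality for a triple in a large set of points
-/

namespace Pool.Agent.LNG2

open Polynomial NumberField IsDedekindDomain Pool.Agent.LNG

theorem many_equal' {T : Type} [Fintype T] {n N : ℕ} (f : Fin N → T)
    (hN : n * Fintype.card T < N) :
    ∃ e : Fin (n + 1) → Fin N, Function.Injective e ∧ ∀ i j, f (e i) = f (e j) := by
  classical
  obtain ⟨y, -, hy⟩ := Finset.exists_lt_card_fiber_of_mul_lt_card_of_maps_to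
    (s := (Finset.univ : Finset (Fin N))) (t := (Finset.univ : Finset T)) (f := f) (n := n)
    (fun a _ => Finset.mem_univ _) (by
      rw [Finset.card_univ, Finset.card_univ, Fintype.card_fin, mul_comm]
      exact hN)
  obtain ⟨s, hs, hcard⟩ := Finset.exists_subset_card_eq (Nat.succ_le_of_lt hy)
  refine ⟨s.orderEmbOfFin hcard, (s.orderEmbOfFin hcard).injective, ?_⟩
  intro i j
  have h1 := hs (s.orderEmbOfFin_mem hcard i)
  have h2 := hs (s.orderEmbOfFin_mem hcard j)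
  rw [Finset.mem_filter] at h1 h2
  rw [h1.2, h2.2]

theorem Tri_card {K : Type} [Field K] [NumberField K] {m n : ℕ} (hm : 0 < m)
    (T : Finset (FinitePlace K)) [DecidableEq (InfinitePlace K)] [DecidableEq T] :
    n * Fintype.card ((InfinitePlace K → Fin m) × (T → Fin m)) ≤
      n * m ^ (Module.finrank ℚ K + T.card) := by
  have h1 : Fintype.card (InfinitePlace K) ≤ Module.finrank ℚ K := by
    rw [← InfinitePlace.sum_mult_eq (K := K), Fintype.card_eq_sum_ones]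
    exact Finset.sum_le_sum fun v _ => v.mult_pos
  have h2 : Fintype.card ((InfinitePlace K → Fin m) × (T → Fin m)) =
      m ^ (Fintype.card (InfinitePlace K) + T.card) := by
    rw [Fintype.card_prod, Fintype.card_fun, Fintype.card_fun, Fintype.card_fin, pow_add,
      Fintype.card_coe]
  rw [h2]
  exact Nat.mul_le_mul_left _ (Nat.pow_le_pow_right hm (by omega))

theorem tri_main (d : ℕ) (hd : 2 ≤ d) :
    ∃ (m : ℕ) (c C₂ C₃ a₀ : ℝ), 0 < m ∧ 0 < c ∧ 0 ≤ C₂ ∧ 0 ≤ C₃ ∧ 0 < a₀ ∧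
    ∀ (K : Type) [Field K] [NumberField K] (F : Coef K d), res F ≠ 0 →
      ∀ (T : Finset (FinitePlace K)) (K' N' N0 : ℕ), 1 ≤ K' → N' = d ^ K' → 3 ≤ N' →
        (N' - 1) * m ^ (Module.finrank ℚ K + T.card) < N0 →
        ∀ X : Fin N0 → Fin 2 → K, (∀ i, X i ≠ 0) → (∀ i j, i ≠ j → wd (X i) (X j) ≠ 0) →
        ∀ lam μ : ℝ, 0 < lam → lam ≤ μ → μ ≤ 1 →
        ∃ τ ∈ D3 N0, lam * a₀ * (2 * d) * Height.logHeight (conj F (At X τ)) +
            (c / 2 * (∑ v ∈ T, rmin v.val F) +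
              (μ * c / 2 - eta K' N') *
                (∑ v : InfinitePlace K, (v.mult : ℝ) * max (rmin v.val F) 0) -
              (7 * lam + eta K' N') *
                (∑ᶠ v ∈ (badPl F \ (T : Set (FinitePlace K))), rmin v.val F) -
              (μ * C₂ + eta K' N' * C₃) * Module.finrank ℚ K) ≤
          Module.finrank ℚ K * (2 * (canHeight F (X τ.1) + canHeight F (X τ.2.1) +
            canHeight F (X τ.2.2))) := by
  classical
  obtain ⟨m, c, C₁, hm, hc, hC₁, hinfp, hfinp⟩ := plc0 d hd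
  have hd1 : 1 ≤ d := by omega
  have hdR : (2 : ℝ) ≤ d := by exact_mod_cast hd
  have hDD : (0 : ℝ) < (d : ℝ) ^ 2 + d := by positivity
  set l : ℝ := Real.log (bigM d) with hl
  have hl0 : 0 ≤ l := Real.log_natCast_nonneg _
  have hld : 0 ≤ Real.log d := Real.log_natCast_nonneg _
  set a₀ : ℝ := min (c / 2) (1 / ((d : ℝ) ^ 2 + d)) with ha₀
  have ha₀0 : 0 < a₀ := lt_min (by linarith) (by positivity)
  have ha₀1 : a₀ ≤ c / 2 := min_le_left _ _
  have ha₀2 : a₀ ≤ 1 / ((d : ℝ) ^ 2 + d) := min_le_right _ _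
  refine ⟨m, c, C₁ + c * l, 3 * l + Real.log d, a₀, hm, hc, by positivity, by positivity, ha₀0, ?_⟩
  intro K _ _ F hF T K' N' N0 hK1 hN' hN3 hN0 X hX0 hX lam μ hlam hlm hμ
  choose χi hχi using fun v : InfinitePlace K => hinfp K v F hF N0 X hX
  choose χf hχf using fun v : FinitePlace K => hfinp K v F hF N0 X hX
  obtain ⟨n', hn'⟩ : ∃ n', N' = n' + 1 := ⟨N' - 1, by omega⟩
  subst hn'
  obtain ⟨e, he1, he2⟩ := many_equal'
    (T := (InfinitePlace K → Fin m) × (T → Fin m)) (n := n') (N := N0)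
    (fun i => (fun v => χi v i, fun v => χf v.1 i))
    (lt_of_le_of_lt (Tri_card hm T) (by simpa using hN0))
  set Y : Fin (n' + 1) → Fin 2 → K := fun i => X (e i) with hY
  have hY0 : ∀ i, Y i ≠ 0 := fun i => hX0 _
  have hYY : ∀ i j, i ≠ j → wd (Y i) (Y j) ≠ 0 := fun i j hij => hX _ _ (fun h => hij (he1 h))
  have hmap : ∀ τ ∈ D3 (n' + 1), (e τ.1, e τ.2.1, e τ.2.2) ∈ D3 N0 := by
    intro τ hτ
    obtain ⟨h1, h2, h3⟩ := (Finset.mem_filter.mp hτ).2
    refine Finset.mem_filter.mpr ⟨Finset.mem_univ _, ?_, ?_, ?_⟩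
    · exact fun h => h1 (he1 h)
    · exact fun h => h2 (he1 h)
    · exact fun h => h3 (he1 h)
  have hAt : ∀ τ, At Y τ = At X (e τ.1, e τ.2.1, e τ.2.2) := fun τ => rfl
  have hSt : ∀ (v : AbsoluteValue K ℝ) τ, St v F Y τ = St v F X (e τ.1, e τ.2.1, e τ.2.2) :=
    fun v τ => rfl
  have hci : ∀ v : InfinitePlace K, ∀ τ ∈ D3 (n' + 1),
      c * rr v.val (conj F (At Y τ)) - C₁ ≤ St v.val F Y τ := by
    intro v τ hτ
    have h1 : χi v (e τ.1) = χi v (e τ.2.1) :=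
      congrFun (congrArg Prod.fst (he2 τ.1 τ.2.1)) v
    have h2 : χi v (e τ.2.1) = χi v (e τ.2.2) :=
      congrFun (congrArg Prod.fst (he2 τ.2.1 τ.2.2)) v
    have h3 := hχi v (e τ.1, e τ.2.1, e τ.2.2) (hmap τ hτ) h1 h2
    rw [hAt, hSt]
    exact h3
  have hcT : ∀ v ∈ T, ∀ τ ∈ D3 (n' + 1),
      c * rr v.val (conj F (At Y τ)) ≤ St v.val F Y τ := by
    intro v hv τ hτ
    have h1 : χf v (e τ.1) = χf v (e τ.2.1) :=
      congrFun (congrArg Prod.snd (he2 τ.1 τ.2.1)) ⟨v, hv⟩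
    have h2 : χf v (e τ.2.1) = χf v (e τ.2.2) :=
      congrFun (congrArg Prod.snd (he2 τ.2.1 τ.2.2)) ⟨v, hv⟩
    have h3 := hχf v (e τ.1, e τ.2.1, e τ.2.2) (hmap τ hτ) h1 h2
    rw [hAt, hSt]
    exact h3
  have hμ0 : 0 < μ := lt_of_lt_of_le hlam hlm
  have hlam1 : lam ≤ 1 := hlm.trans hμ
  set a : ℝ := lam * a₀ with ha
  have ha0 : 0 < a := mul_pos hlam ha₀0
  have hac : a ≤ μ * c / 2 := by
    have h1 : lam * a₀ ≤ μ * (c / 2) := mul_le_mul hlm ha₀1 ha₀0.le hμ0.le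
    linarith
  have hac2 : a ≤ c / 2 := by
    have h1 : μ * c / 2 ≤ c / 2 := by nlinarith
    linarith
  have had : a ≤ lam / ((d : ℝ) ^ 2 + d) := by
    rw [ha, div_eq_mul_one_div lam]
    exact mul_le_mul_of_nonneg_left ha₀2 hlam.le
  set η : ℝ := eta K' (n' + 1) with hη
  have hinf : ∀ v : InfinitePlace K, a * ∑ τ ∈ D3 (n' + 1), rr v.val (conj F (At Y τ)) +
      (D3 (n' + 1)).card * ((μ * c / 2 - η) * max (rmin v.val F) 0 -
        (μ * (C₁ + c * l) + η * (3 * l + Real.log d))) ≤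
        ∑ τ ∈ D3 (n' + 1), St v.val F Y τ := by
    intro v
    have h := loc_inf hd v.val hF K' (n' + 1) hN' hN3 Y hY0 hYY (C₁ := C₁) hc ha0.le hμ0 hμ hac
      (hci v)
    refine le_trans (le_of_eq ?_) h
    rw [← hη, ← hl]
    ring
  have hT : ∀ v ∈ T, a * ∑ τ ∈ D3 (n' + 1), rr v.val (conj F (At Y τ)) +
      (D3 (n' + 1)).card * (c / 2 * rmin v.val F) ≤
        ∑ τ ∈ D3 (n' + 1), St v.val F Y τ := by
    intro v hv
    exact loc_T hd v hF (n' + 1) Y hYY hc hac2 (hcT v hv)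
  have hgood : ∀ v : FinitePlace K, v ∉ T → a * ∑ τ ∈ D3 (n' + 1), rr v.val (conj F (At Y τ)) -
      (D3 (n' + 1)).card * (7 * lam + η) * rmin v.val F ≤ ∑ τ ∈ D3 (n' + 1), St v.val F Y τ :=
    fun v _ => loc_fin hd v hF K' (n' + 1) hK1 hN' hN3 Y hY0 hYY hlam.le hlam1 had
  have hglo := glo2 hd hF (n' + 1) Y hY0 hYY T hinf hT hgood
  have hn0 : (0 : ℝ) < ((D3 (n' + 1)).card : ℝ) := by
    rw [card_D3]
    have h3 : (3 : ℝ) ≤ ((n' + 1 : ℕ) : ℝ) := by exact_mod_cast hN3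
    have h4 : 0 < ((n' + 1 : ℕ) : ℝ) - 1 := by linarith
    have h5 : 0 < ((n' + 1 : ℕ) : ℝ) - 2 := by linarith
    positivity
  set B : ℝ := (c / 2 * (∑ v ∈ T, rmin v.val F) +
      (μ * c / 2 - η) * (∑ v : InfinitePlace K, (v.mult : ℝ) * max (rmin v.val F) 0) -
      (7 * lam + η) * (∑ᶠ v ∈ (badPl F \ (T : Set (FinitePlace K))), rmin v.val F) -
      (μ * (C₁ + c * l) + η * (3 * l + Real.log d)) * Module.finrank ℚ K) with hB
  obtain ⟨τ, hτ, hτle⟩ : ∃ τ ∈ D3 (n' + 1),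
      a * (2 * d) * Height.logHeight (conj F (At Y τ)) + B ≤
      Module.finrank ℚ K * (2 * (canHeight F (Y τ.1) + canHeight F (Y τ.2.1) +
        canHeight F (Y τ.2.2))) := by
    by_contra hnot
    push Not at hnot
    have hne : (D3 (n' + 1)).Nonempty := by
      rw [← Finset.card_pos]
      exact_mod_cast hn0
    have h1 := Finset.sum_lt_sum_of_nonempty hne hnot
    have e1 : ∑ τ ∈ D3 (n' + 1), Module.finrank ℚ K * (2 * (canHeight F (Y τ.1) +
        canHeight F (Y τ.2.1) + canHeight F (Y τ.2.2))) =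
        Module.finrank ℚ K * ∑ τ ∈ D3 (n' + 1), 2 * (canHeight F (Y τ.1) +
        canHeight F (Y τ.2.1) + canHeight F (Y τ.2.2)) := (Finset.mul_sum _ _ _).symm
    have e2 : ∑ τ ∈ D3 (n' + 1), a * (2 * d) * Height.logHeight (conj F (At Y τ)) =
        a * (2 * d) * ∑ τ ∈ D3 (n' + 1), Height.logHeight (conj F (At Y τ)) :=
      (Finset.mul_sum _ _ _).symm
    rw [e1, Finset.sum_add_distrib, Finset.sum_const, nsmul_eq_mul, e2] at h1
    linarith
  exact ⟨(e τ.1, e τ.2.1, e τ.2.2), hmap τ hτ, hτle⟩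

end Pool.Agent.LNG2
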